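import Pool.Agent.U207.IM.Spec

/-! Specialization of independent families of rational functions (adapted from
`Pool.Agent.U207.IM.Spec`). -/

set_option autoImplicit false

namespace Pool.Agent.U207.PD

open MvPolynomial IntermediateField Pool.Agent.R867.Mov Pool.Agent.R867.D Pool.Agent.R867.J

universe u v w

section Family

variable {k K : Type u} [Field k] [Field K] [Algebra k K] {N n : ℕ}

/-- A family of rational functions over `K` which are independent over `K` for the indices in `J` can
be specialized at all points of a dense open subset. -/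
theorem specY0 {x : Fin N → K} (hx : adjoin k (Set.range x) = ⊤) (y : Fin N → Rt n K)
    (J : Set (Fin N)) (hJ : AlgebraicIndependent K (fun i : J => y i)) :
    ∃ (P : Fin N → MvPolynomial (Fin n) (MvPolynomial (Fin N) k))
      (D : MvPolynomial (Fin n) (MvPolynomial (Fin N) k)) (g : MvPolynomial (Fin N) k),
      (ΦR x n D ≠ 0 ∧ ∀ i, y i * ΦR x n D = ΦR x n (P i)) ∧ aeval x g ≠ 0 ∧
      ∀ {E : Type u} [Field E] [Algebra k E] (c : Fin N → E),
        (∀ Q : MvPolynomial (Fin N) k, aeval x Q = 0 → aeval c Q = 0) → aeval c g ≠ 0 →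
        evE c n D ≠ 0 ∧ AlgebraicIndependent E (fun i : J => evE c n (P i) / evE c n D) := by
  classical
  obtain ⟨P, D, hD, hyP⟩ := exists_common (n := n) hx N y
  -- a transcendence basis of `Rt n K` over `K`
  obtain ⟨v, hv⟩ : ∃ v : Fin N ⊕ Fin n → Rt n K, v = Sum.elim y
    (fun j => algebraMap (MvPolynomial (Fin n) K) (Rt n K) (X j)) := ⟨_, rfl⟩
  have hJv : AlgebraicIndepOn K v (Sum.inl '' J) := by
    have h2 : AlgebraicIndependent K (fun i : (Sum.inl '' J : Set (Fin N ⊕ Fin n)) => v i) := by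
      have h3 := hJ.comp (Equiv.Set.image _ J (Sum.inl_injective (β := Fin n))).symm
        (Equiv.injective _)
      have h5 : ((fun i : J => y i) ∘ (Equiv.Set.image _ J
          (Sum.inl_injective (β := Fin n))).symm) =
          (fun i : (Sum.inl '' J : Set (Fin N ⊕ Fin n)) => v i) := by
        funext i
        obtain ⟨i, j, hj, rfl⟩ := i
        have h4 : (Equiv.Set.image _ J (Sum.inl_injective (β := Fin n))).symm
            ⟨Sum.inl j, j, hj, rfl⟩ = ⟨j, hj⟩ := by
          rw [Equiv.symm_apply_eq]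
          rfl
        simp only [Function.comp_apply, h4]
        rw [hv]
        rfl
      rw [← h5]
      exact h3
    exact h2
  obtain ⟨S, hJS, hS, hSa⟩ := maxIndep v _ hJv
  have hcard : Cardinal.mk S ≤ n := by
    have h1 := hS.lift_cardinalMk_le_trdeg
    rw [trdeg_rt] at h1
    simpa using h1
  obtain ⟨G, hG⟩ : ∃ G : Set (Fin N ⊕ (Fin N ⊕ Fin n)), G = Set.range Sum.inl ∪ Sum.inr '' S :=
    ⟨_, rfl⟩
  -- the parameters are algebraic over the family indexed by `G`
  have hTa : ∀ l : Fin N ⊕ Fin n,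
      IsAlgebraic (Algebra.adjoin k (fam x y '' G)) (fam x y (Sum.inr l)) := by
    intro l
    have h1 := hSa l
    rw [← isAlgebraic_adjoin_iff] at h1 ⊢
    have h2 : (adjoin K (v '' S)).restrictScalars k ≤ adjoin k (fam x y '' G) := by
      intro z hz
      rw [mem_restrictScalars] at hz
      have h3 : ∀ a : K, algebraMap K (Rt n K) a ∈ adjoin k (fam x y '' G) := by
        intro a
        have ha : a ∈ adjoin k (Set.range x) := by rw [hx]; trivial
        rw [mem_adjoin_range_iff] at ha
        obtain ⟨p, q, rfl⟩ := ha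
        rw [map_div₀]
        have h5 : ∀ p : MvPolynomial (Fin N) k, algebraMap K (Rt n K) (aeval x p) ∈
            adjoin k (fam x y '' G) := by
          intro p
          rw [← MvPolynomial.aeval_algebraMap_apply]
          refine aeval_mem' _ _ (fun i => ?_) p
          apply IntermediateField.subset_adjoin
          refine ⟨Sum.inl i, ?_, rfl⟩
          rw [hG]
          exact Or.inl ⟨i, rfl⟩
        exact div_mem (h5 p) (h5 q)
      have h4 : v '' S = Set.range (fun i : S => v i) := by
        ext; simp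
      rw [h4, mem_adjoin_range_iff] at hz
      obtain ⟨p, q, rfl⟩ := hz
      have h5 : ∀ p : MvPolynomial S K, aeval (fun i : S => v i) p ∈
          adjoin k (fam x y '' G) := by
        intro p
        rw [aeval_def, eval₂_eq]
        refine sum_mem fun d _ => mul_mem (h3 _) (prod_mem fun i _ => pow_mem ?_ _)
        apply IntermediateField.subset_adjoin
        refine ⟨Sum.inr i, ?_, ?_⟩
        · rw [hG]
          exact Or.inr ⟨i, i.2, rfl⟩
        · rw [hv]
          rfl
      exact div_mem (h5 p) (h5 q)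
    obtain ⟨p, hp0, hp⟩ := h1
    refine ⟨p.map (IntermediateField.inclusion h2 : _ →ₐ[k] _).toRingHom,
      (Polynomial.map_ne_zero_iff (RingHom.injective _)).mpr hp0, ?_⟩
    rw [Polynomial.aeval_def, Polynomial.eval₂_map]
    have h6 : fam x y (Sum.inr l) = v l := by rw [hv]; rfl
    rw [h6]
    exact hp
  -- bad loci
  have hgl : ∀ l : Fin N ⊕ Fin n, ∃ g : MvPolynomial (Fin N) k, aeval x g ≠ 0 ∧
      ∀ {E : Type u} [Field E] [Algebra k E] (c : Fin N → E) (yc : Fin N → Rt n E),
        GoodE x P D c yc → aeval c g ≠ 0 →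
        IsAlgebraic (Algebra.adjoin k (fam c yc '' G)) (fam c yc (Sum.inr l)) :=
    fun l => algSpecE hD hyP G (Sum.inr l) (hTa l)
  choose g hg hg' using hgl
  obtain ⟨mD, hmD⟩ := evE_ne_aux hD
  refine ⟨P, D, coeff mD D * ∏ l, g l, ⟨hD, hyP⟩, by
    rw [map_mul, map_prod]
    exact mul_ne_zero hmD (Finset.prod_ne_zero_iff.mpr fun l _ => hg l), ?_⟩
  intro E _ _ c hc hcG
  rw [map_mul, map_prod] at hcG
  have hcD : evE c n D ≠ 0 := evE_ne (left_ne_zero_of_mul hcG)
  have hcg : ∀ l, aeval c (g l) ≠ 0 := fun l =>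
    Finset.prod_ne_zero_iff.mp (right_ne_zero_of_mul hcG) l (Finset.mem_univ l)
  obtain ⟨yc, hyc⟩ : ∃ yc : Fin N → Rt n E, yc = fun i => evE c n (P i) / evE c n D := ⟨_, rfl⟩
  have hgood : GoodE x P D c yc := ⟨hc, hcD, fun i => by
    rw [hyc]
    exact div_mul_cancel₀ _ hcD⟩
  obtain ⟨vc, hvc⟩ : ∃ vc : Fin N ⊕ Fin n → Rt n E, vc = Sum.elim yc
    (fun j => algebraMap (MvPolynomial (Fin n) E) (Rt n E) (X j)) := ⟨_, rfl⟩
  have hTc : ∀ l, IsAlgebraic (Algebra.adjoin E (vc '' S)) (vc l) := by
    intro l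
    have h1 := hg' l c yc hgood (hcg l)
    have h2 : fam c yc (Sum.inr l) = vc l := by rw [hvc]; rfl
    rw [h2] at h1
    obtain ⟨p, hp0, hp⟩ := h1
    have hle : Algebra.adjoin k (fam c yc '' G) ≤
        (Algebra.adjoin E (vc '' S)).restrictScalars k := by
      rw [Algebra.adjoin_le_iff]
      rintro z ⟨i, hi, rfl⟩
      rw [hG] at hi
      rcases hi with ⟨i, rfl⟩ | ⟨i, hi, rfl⟩
      · exact Subalgebra.algebraMap_mem (Algebra.adjoin E (vc '' S)) (c i)
      · apply Algebra.subset_adjoin
        refine ⟨i, hi, ?_⟩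
        rw [hvc]
        rfl
    refine ⟨p.map (Subalgebra.inclusion hle : _ →ₐ[k] _).toRingHom, ?_, ?_⟩
    · exact (Polynomial.map_ne_zero_iff (f := (Subalgebra.inclusion hle : _ →ₐ[k] _).toRingHom)
        (Subalgebra.inclusion_injective hle)).mpr hp0
    · rw [Polynomial.aeval_def, Polynomial.eval₂_map]
      exact hp
  have himg : vc '' S = Set.range (fun i : S => vc i) := by
    ext; simp
  have hind : AlgebraicIndependent E (fun i : S => vc i) := by
    have h1 : Algebra.IsAlgebraic (Algebra.adjoin E (Set.range (fun i : S => vc i))) (Rt n E) := by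
      rw [← himg]
      refine isAlg_of_adjoin _ _ (adjoin_X E n) fun j => ?_
      have h2 := hTc (Sum.inr j)
      rw [hvc] at h2 ⊢
      exact h2
    exact (Algebra.IsAlgebraic.isTranscendenceBasis_of_lift_le_trdeg_of_finite E
      (fun i : S => vc i) (by
        rw [trdeg_rt]
        simpa using hcard)).1
  have hindJ : AlgebraicIndependent E (fun i : J => yc i) := by
    have h1 := hind.comp (fun i : J => (⟨Sum.inl i, hJS ⟨i, i.2, rfl⟩⟩ : S)) (by
      intro a b hab
      have := congrArg Subtype.val hab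
      exact Subtype.ext (Sum.inl_injective this))
    have h2 : ((fun i : S => vc i) ∘ fun i : J => (⟨Sum.inl i, hJS ⟨i, i.2, rfl⟩⟩ : S)) =
        (fun i : J => yc i) := by
      funext i
      rw [hvc]
      rfl
    rw [← h2]
    exact h1
  rw [hyc] at hindJ
  exact ⟨hcD, hindJ⟩

/-- the same for different numbers of generators and functions -/
theorem specY {q : ℕ} {ω : Fin q → K} (hω : adjoin k (Set.range ω) = ⊤) (y : Fin N → Rt n K)
    (J : Set (Fin N)) (hJ : AlgebraicIndependent K (fun i : J => y i)) :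
    ∃ (P : Fin N → MvPolynomial (Fin n) (MvPolynomial (Fin q) k))
      (D : MvPolynomial (Fin n) (MvPolynomial (Fin q) k)) (g : MvPolynomial (Fin q) k),
      (ΦR ω n D ≠ 0 ∧ ∀ i, y i * ΦR ω n D = ΦR ω n (P i)) ∧ aeval ω g ≠ 0 ∧
      ∀ {E : Type u} [Field E] [Algebra k E] (c : Fin q → E),
        (∀ Q : MvPolynomial (Fin q) k, aeval ω Q = 0 → aeval c Q = 0) → aeval c g ≠ 0 →
        evE c n D ≠ 0 ∧ AlgebraicIndependent E (fun i : J => evE c n (P i) / evE c n D) := by
  classical
  obtain ⟨J', hJ'⟩ : ∃ J' : Set (Fin (q + N)), J' = Fin.natAdd q '' J := ⟨_, rfl⟩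
  obtain ⟨y', hy'⟩ : ∃ y' : Fin (q + N) → Rt n K, y' = Fin.append (fun _ => 0) y := ⟨_, rfl⟩
  have pad : ∀ {E : Type u} [Field E] [Algebra k E] (c : Fin q → E),
      ∀ Q : MvPolynomial (Fin (q + N)) k, aeval (Fin.append c fun _ : Fin N => (0 : E)) Q =
        aeval c (aeval (Fin.append X fun _ : Fin N => (0 : MvPolynomial (Fin q) k)) Q) := by
    intro E _ _ c Q
    have h : (aeval (Fin.append c fun _ : Fin N => (0 : E)) : MvPolynomial (Fin (q + N)) k →ₐ[k] E) =
        (aeval c : MvPolynomial (Fin q) k →ₐ[k] E).comp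
          (aeval (Fin.append X fun _ : Fin N => (0 : MvPolynomial (Fin q) k))) := by
      apply MvPolynomial.algHom_ext
      intro i
      rw [AlgHom.comp_apply, aeval_X, aeval_X]
      refine Fin.addCases (fun i => ?_) (fun i => ?_) i
      · rw [Fin.append_left, Fin.append_left, aeval_X]
      · rw [Fin.append_right, Fin.append_right, map_zero]
    exact congrArg (fun f : MvPolynomial (Fin (q + N)) k →ₐ[k] E => f Q) h
  have hgen : adjoin k (Set.range (Fin.append ω fun _ : Fin N => (0 : K))) = ⊤ := by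
    rw [eq_top_iff, ← hω]
    refine adjoin_le_iff.2 ?_
    rintro _ ⟨i, rfl⟩
    exact subset_adjoin _ _ ⟨Fin.castAdd N i, Fin.append_left _ _ i⟩
  obtain ⟨P, D, g, ⟨hD, hP⟩, hg, H⟩ := specY0 hgen y' J' (by
    have h3 := hJ.comp (Equiv.Set.image _ J (Fin.natAdd_injective N q)).symm (Equiv.injective _)
    have h5 : ((fun i : J => y i) ∘ (Equiv.Set.image _ J (Fin.natAdd_injective N q)).symm) =
        (fun i : (Fin.natAdd q '' J : Set (Fin (q + N))) => y' i) := by
      funext i
      obtain ⟨i, j, hj, rfl⟩ := i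
      have h4 : (Equiv.Set.image _ J (Fin.natAdd_injective N q)).symm
          ⟨Fin.natAdd q j, j, hj, rfl⟩ = ⟨j, hj⟩ := by
        rw [Equiv.symm_apply_eq]
        rfl
      simp only [Function.comp_apply, h4]
      rw [hy', Fin.append_right]
    rw [h5] at h3
    rw [hJ']
    exact h3)
  obtain ⟨π, hπ⟩ : ∃ π : MvPolynomial (Fin (q + N)) k →+* MvPolynomial (Fin q) k,
    π = ((aeval (Fin.append X fun _ : Fin N => (0 : MvPolynomial (Fin q) k)) :
      MvPolynomial (Fin (q + N)) k →ₐ[k] MvPolynomial (Fin q) k) :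
      MvPolynomial (Fin (q + N)) k →+* MvPolynomial (Fin q) k) := ⟨_, rfl⟩
  have hev : ∀ {E : Type u} [Field E] [Algebra k E] (c : Fin q → E)
      (Q : MvPolynomial (Fin n) (MvPolynomial (Fin (q + N)) k)),
      evE (Fin.append c fun _ : Fin N => (0 : E)) n Q = evE c n (MvPolynomial.map π Q) := by
    intro E _ _ c Q
    have h : evc (k := k) (Fin.append c fun _ : Fin N => (0 : E)) = (evc c).comp π := by
      apply RingHom.ext
      intro a
      rw [RingHom.comp_apply, evc_apply, evc_apply, hπ]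
      exact pad c a
    rw [evE_apply, evE_apply, MvPolynomial.map_map, h]
  have hΦ : ∀ Q : MvPolynomial (Fin n) (MvPolynomial (Fin (q + N)) k),
      ΦR (Fin.append ω fun _ : Fin N => (0 : K)) n Q = ΦR ω n (MvPolynomial.map π Q) := fun Q =>
    hev ω Q
  refine ⟨fun i => MvPolynomial.map π (P (Fin.natAdd q i)), MvPolynomial.map π D, π g,
    ⟨by rw [← hΦ]; exact hD, fun i => ?_⟩, ?_, ?_⟩
  · rw [← hΦ, ← hΦ, ← hP, hy', Fin.append_right]
  · rw [pad] at hg
    rw [hπ]
    exact hg
  · intro E _ _ c hc hcg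
    obtain ⟨h1, h2⟩ := H (Fin.append c fun _ : Fin N => (0 : E)) (fun Q hQ => by
      rw [pad] at hQ ⊢
      exact hc _ hQ) (by
      rw [pad]
      rw [hπ] at hcg
      exact hcg)
    refine ⟨by rw [← hev]; exact h1, ?_⟩
    have h3 := h2.comp (fun i : J => (⟨Fin.natAdd q i, by rw [hJ']; exact ⟨i, i.2, rfl⟩⟩ : J'))
      (by
        intro a b hab
        have h4 := congrArg (fun z : J' => (z : Fin (q + N))) hab
        exact Subtype.ext (Fin.natAdd_injective N q h4))
    have h5 : ((fun i : J' => evE (Fin.append c fun _ : Fin N => (0 : E)) n (P i) /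
        evE (Fin.append c fun _ : Fin N => (0 : E)) n D) ∘
        fun i : J => (⟨Fin.natAdd q i, by rw [hJ']; exact ⟨i, i.2, rfl⟩⟩ : J')) =
        fun i : J => evE c n (MvPolynomial.map π (P (Fin.natAdd q i))) /
          evE c n (MvPolynomial.map π D) := by
      funext i
      rw [Function.comp_apply, hev, hev]
    rw [h5] at h3
    exact h3

end Family

end Pool.Agent.U207.PD
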