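import Pool.Agent.U207.PD.Asm
import Pool.Agent.U207.PD.SpecY

/-! Assembly: potential density from coverings by unirational subvarieties which dominate the base.
Adapted from `Pool.Agent.Y742.GG.Asm`. -/

set_option autoImplicit false
set_option linter.unusedSectionVars false

open Pool.Agent.Y720.MZ Filter Topology MvPolynomial Pool.Agent.Y742.GG Pool.Agent.R867.Mov
open Pool.Agent.R867.D

namespace Pool.Agent.U207.PD

/-- values at quotients -/
theorem clearA {k A : Type} [Field k] [CommRing A] (c : k →+* A) {N : ℕ} (a : Fin N → A) (d : A)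
    (Q : MvPolynomial (Fin N) k) :
    ∃ (Q' : A) (m : ℕ), ∀ {R : Type} [Field R] (ρ : A →+* R) (z : Fin N → R),
      (∀ l, z l * ρ d = ρ (a l)) → eval₂ (ρ.comp c) z Q * ρ d ^ m = ρ Q' := by
  induction Q using MvPolynomial.induction_on with
  | C r =>
    refine ⟨c r, 0, fun ρ z _ => ?_⟩
    rw [eval₂_C, pow_zero, mul_one]
    rfl
  | add p q hp hq =>
    obtain ⟨Q₁, e₁, h₁⟩ := hp
    obtain ⟨Q₂, e₂, h₂⟩ := hq
    refine ⟨Q₁ * d ^ e₂ + Q₂ * d ^ e₁, e₁ + e₂, fun ρ z hz => ?_⟩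
    rw [eval₂_add, map_add, map_mul, map_mul, map_pow, map_pow, ← h₁ ρ z hz, ← h₂ ρ z hz]
    ring
  | mul_X p i hp =>
    obtain ⟨Q, e, h⟩ := hp
    refine ⟨Q * a i, e + 1, fun ρ z hz => ?_⟩
    rw [eval₂_mul, eval₂_X, map_mul, ← h ρ z hz, ← hz i]
    ring

theorem countable_mv (R : Type) [CommRing R] [Countable R] (n : ℕ) :
    Countable (MvPolynomial (Fin n) R) := by
  rw [← Cardinal.mk_le_aleph0_iff]
  refine MvPolynomial.cardinalMk_le_max.trans ?_
  simp only [max_le_iff, le_refl, and_true]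
  exact ⟨Cardinal.mk_le_aleph0_iff.2 inferInstance, Cardinal.mk_le_aleph0⟩

/-- independent `p`-adic numbers over a countable ring -/
theorem exists_t1 {p : ℕ} [hp : Fact p.Prime] {A : Type} [CommRing A] [Countable A]
    (ρ : A →+* ℚ_[p]) (r : ℕ) :
    ∃ t₀ : Fin r → ℚ_[p], ∀ P : MvPolynomial (Fin r) A, eval₂ ρ t₀ P = 0 →
      MvPolynomial.map ρ P = 0 := by
  have hcP : Countable (MvPolynomial (Fin r) A) := countable_mv A r
  have hdense : Dense (⋂ P : {P : MvPolynomial (Fin r) A // MvPolynomial.map ρ P ≠ 0},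
      {Y : Fin r → ℚ_[p] | eval Y (map ρ P.1) ≠ 0}) := by
    refine dense_iInter_of_isOpen (fun P => ?_) fun P => ?_
    · exact isOpen_compl_singleton.preimage (MvPolynomial.continuous_eval _)
    · exact dense_ne P.2
  obtain ⟨t₀, ht₀⟩ := hdense.nonempty
  refine ⟨t₀, fun P hP => ?_⟩
  by_contra h0
  have h1 := Set.mem_iInter.1 ht₀ ⟨P, h0⟩
  apply h1
  rw [eval_map]
  exact hP

/-- the value of a polynomial in two sets of variables -/
noncomputable def val2 {k R : Type} [CommRing k] [CommRing R] (σ : k →+* R) {q r : ℕ}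
    (w : Fin q → R) (t : Fin r → R) : MvPolynomial (Fin r) (MvPolynomial (Fin q) k) →+* R :=
  eval₂Hom (eval₂Hom σ w) t

theorem val2_apply {k R : Type} [CommRing k] [CommRing R] (σ : k →+* R) {q r : ℕ}
    (w : Fin q → R) (t : Fin r → R) (P : MvPolynomial (Fin r) (MvPolynomial (Fin q) k)) :
    val2 σ w t P = eval₂ (eval₂Hom σ w) t P := rfl

/-- the constants -/
noncomputable def CC (k : Type) [CommRing k] (q r : ℕ) :
    k →+* MvPolynomial (Fin r) (MvPolynomial (Fin q) k) :=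
  (C : MvPolynomial (Fin q) k →+* _).comp C

theorem val2_CC {k R : Type} [CommRing k] [CommRing R] (σ : k →+* R) {q r : ℕ}
    (w : Fin q → R) (t : Fin r → R) : (val2 σ w t).comp (CC k q r) = σ := by
  apply RingHom.ext
  intro a
  rw [RingHom.comp_apply, CC, RingHom.comp_apply, val2_apply, eval₂_C, coe_eval₂Hom, eval₂_C]

theorem val2_comp {k R R' : Type} [CommRing k] [CommRing R] [CommRing R'] (σ : k →+* R)
    (f : R →+* R') {q r : ℕ} (w : Fin q → R) (t : Fin r → R)
    (P : MvPolynomial (Fin r) (MvPolynomial (Fin q) k)) :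
    val2 (f.comp σ) (fun i => f (w i)) (fun i => f (t i)) P = f (val2 σ w t P) := by
  have h : val2 (f.comp σ) (fun i => f (w i)) (fun i => f (t i)) = f.comp (val2 σ w t) := by
    apply MvPolynomial.ringHom_ext
    · intro a
      rw [RingHom.comp_apply, val2_apply, val2_apply, eval₂_C, eval₂_C, coe_eval₂Hom,
        coe_eval₂Hom, eval₂_comp_left]
      rfl
    · intro i
      rw [RingHom.comp_apply, val2_apply, val2_apply, eval₂_X, eval₂_X]
  exact congrArg (fun g : MvPolynomial (Fin r) (MvPolynomial (Fin q) k) →+* R' => g P) h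

theorem cont_val2 {p : ℕ} [hp : Fact p.Prime] {k : Type} [Field k] (σ : k →+* ℚ_[p]) {q r : ℕ}
    (P : MvPolynomial (Fin r) (MvPolynomial (Fin q) k)) :
    Continuous fun z : (Fin q → ℚ_[p]) × (Fin r → ℚ_[p]) => val2 σ z.1 z.2 P := by
  induction P using MvPolynomial.induction_on with
  | C a =>
    have h : (fun z : (Fin q → ℚ_[p]) × (Fin r → ℚ_[p]) => val2 σ z.1 z.2 (C a)) =
        fun z => eval z.1 (MvPolynomial.map σ a) := by
      funext z
      rw [val2_apply, eval₂_C, coe_eval₂Hom, eval_map]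
    rw [h]
    exact (MvPolynomial.continuous_eval _).comp continuous_fst
  | add a b ha hb =>
    simp only [map_add]
    exact ha.add hb
  | mul_X a i ha =>
    simp only [map_mul]
    refine ha.mul ?_
    have h : (fun z : (Fin q → ℚ_[p]) × (Fin r → ℚ_[p]) => val2 σ z.1 z.2 (X i)) =
        fun z => z.2 i := by
      funext z
      rw [val2_apply, eval₂_X]
    rw [h]
    exact (continuous_apply i).comp continuous_snd

/-- **Assembly.** -/
theorem asm_cov (k₀ : Type) [Field k₀] [CharZero k₀] (hk₀ : FG k₀) {N m : ℕ}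
    (F : MvPolynomial (Fin N) k₀)
    (hF : Irreducible (MvPolynomial.map (algebraMap k₀ (AlgebraicClosure k₀)) F))
    {K : Type} [Field K] [DecidableEq K] [Algebra (AlgebraicClosure k₀) K] {x : Fin N → K}
    (hx1 : ∀ P : MvPolynomial (Fin N) (AlgebraicClosure k₀), aeval x P = 0 ↔
      MvPolynomial.map (algebraMap k₀ (AlgebraicClosure k₀)) F ∣ P)
    (hx2 : IntermediateField.adjoin (AlgebraicClosure k₀) (Set.range x) = ⊤)
    {S : Set (Fin N)} {l₀ : Fin N} (hS₀ : l₀ ∉ S) (hl₀ : pderiv l₀ F ≠ 0)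
    (D : Fin m → Derivation (AlgebraicClosure k₀) K K) (μ : Fin m → Mv K N)
    (hd : ∀ i l, (μ i).d l = D i (x l))
    (hOk : ∀ i, ∀ (k : Type) [Field k] (c : k →+* AlgebraicClosure k₀)
      (G : MvPolynomial (Fin N) k), eval₂ ((algebraMap (AlgebraicClosure k₀) K).comp c) x G = 0 →
        (μ i).Ok ((algebraMap (AlgebraicClosure k₀) K).comp c) G x)
    (hinf : ∀ i, dc ((μ i).w ^ 2) (μ i).q₁ (μ i).q₂ (μ i).q₃ (μ i).q₄ ≠ 0 → ∀ h, ∀ n : ℕ, n ≠ 0 →
      n • (.some (xs (μ i).w (μ i).q₁ (μ i).q₂) (ys (μ i).w (μ i).q₁ (μ i).q₂ (μ i).q₃) h :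
        Pt (μ i).q₂ (rb (μ i).w (μ i).q₁ (μ i).q₃ (μ i).q₄)
          (rc (μ i).w (μ i).q₁ (μ i).q₂ (μ i).q₃ (μ i).q₄)) ≠ 0)
    (hgen : ∀ a, a ∉ S → a ≠ l₀ → ∀ g : LieSubalgebra (AlgebraicClosure k₀)
      (Derivation (AlgebraicClosure k₀) K K), (∀ D ∈ g, ∀ c : K, c • D ∈ g) → (∀ i, D i ∈ g) →
      ∀ E : Derivation (AlgebraicClosure k₀) K K, (∀ l, l ≠ a → l ≠ l₀ → E (x l) = 0) → E ∈ g)
    {q r : ℕ} {G : MvPolynomial (Fin q) (AlgebraicClosure k₀)} (hG : Irreducible G) {E : Type}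
    [Field E] [Algebra (AlgebraicClosure k₀) E] {ω : Fin q → E} (hω : IsGenericPoint G ω)
    (y : Fin N → Rt r E)
    (hy : ∀ P : MvPolynomial (Fin N) (AlgebraicClosure k₀), aeval y P = 0 ↔ aeval x P = 0)
    (hyS : AlgebraicIndependent E (fun s : S => y s)) :
    ∃ L : IntermediateField k₀ (AlgebraicClosure k₀), FiniteDimensional k₀ L ∧
      ∀ P : MvPolynomial (Fin N) (AlgebraicClosure k₀),
        (∀ y : Fin N → AlgebraicClosure k₀, (∀ l, y l ∈ L) →
          eval y (MvPolynomial.map (algebraMap k₀ (AlgebraicClosure k₀)) F) = 0 →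
            eval y P = 0) →
        MvPolynomial.map (algebraMap k₀ (AlgebraicClosure k₀)) F ∣ P := by
  classical
  have hcK : CharZero K := charZero_of_injective_algebraMap
    (algebraMap (AlgebraicClosure k₀) K).injective
  have hfrac : ∀ f : K, ∃ P Q : MvPolynomial (Fin N) (AlgebraicClosure k₀), aeval x Q ≠ 0 ∧
      f * aeval x Q = aeval x P := by
    intro f
    have hf : f ∈ IntermediateField.adjoin (AlgebraicClosure k₀) (Set.range x) := by
      rw [hx2]; trivial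
    rw [IntermediateField.mem_adjoin_range_iff] at hf
    obtain ⟨r, s, hrs⟩ := hf
    by_cases hs : aeval x s = 0
    · rw [hs, div_zero] at hrs
      exact ⟨0, 1, by simp, by simp [hrs]⟩
    · exact ⟨r, s, hs, by rw [hrs, div_mul_cancel₀ _ hs]⟩
  have hfrac' := hfrac
  choose Pf Qf hQf hPf using hfrac
  set FΩ := MvPolynomial.map (algebraMap k₀ (AlgebraicClosure k₀)) F with hFΩ
  -- lifts of the derivations
  set u : Fin m → MvPolynomial (Fin N) (AlgebraicClosure k₀) := fun i =>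
    ∏ l, Qf (D i (x l)) with hu
  set v : Fin m → Fin N → MvPolynomial (Fin N) (AlgebraicClosure k₀) := fun i l =>
    Pf (D i (x l)) * ∏ a ∈ Finset.univ.erase l, Qf (D i (x a)) with hv
  have hu0 : ∀ i, aeval x (u i) ≠ 0 := by
    intro i
    rw [hu, map_prod]
    exact Finset.prod_ne_zero_iff.2 fun l _ => hQf _
  have huv : ∀ i l, aeval x (v i l) = aeval x (u i) * D i (x l) := by
    intro i l
    simp only [hu, hv]
    rw [← Finset.mul_prod_erase _ _ (Finset.mem_univ l), map_mul, map_mul, ← hPf]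
    ring
  have hst : ∀ a : Fin N, ∃ h : MvPolynomial (Fin N) (AlgebraicClosure k₀), aeval x h ≠ 0 ∧
      (a ∉ S → a ≠ l₀ → ∀ I : Ideal (MvPolynomial (Fin N) (AlgebraicClosure k₀)), FΩ ∈ I →
        (∀ i, ∀ g ∈ I, ∑ l, pderiv l g * v i l ∈ I) →
        ∀ g ∈ I, h * (pderiv l₀ FΩ * pderiv a g - pderiv a FΩ * pderiv l₀ g) ∈ I) := by
    intro a
    by_cases h1 : a ∉ S ∧ a ≠ l₀
    · obtain ⟨h, hh, hst⟩ := Pool.Agent.U207.GB.stable_rel hfrac' hx1 D l₀ a
        (hgen a h1.1 h1.2) u v hu0 huv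
      exact ⟨h, hh, fun _ _ => hst⟩
    · exact ⟨1, by simp, fun h2 h3 => absurd ⟨h2, h3⟩ h1⟩
  choose h hh hst using hst
  obtain ⟨H, hH⟩ : ∃ H, H = ∏ a, h a := ⟨_, rfl⟩
  have hH0 : aeval x H ≠ 0 := by
    rw [hH, map_prod]
    exact Finset.prod_ne_zero_iff.2 fun l _ => hh _
  have hstH : ∀ I : Ideal (MvPolynomial (Fin N) (AlgebraicClosure k₀)), FΩ ∈ I →
      (∀ i, ∀ g ∈ I, ∑ l, pderiv l g * v i l ∈ I) → ∀ a, a ∉ S → a ≠ l₀ → ∀ g ∈ I,
        H * (pderiv l₀ FΩ * pderiv a g - pderiv a FΩ * pderiv l₀ g) ∈ I := by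
    intro I hI1 hI2 a ha1 ha2 g hg
    rw [hH, ← Finset.mul_prod_erase _ _ (Finset.mem_univ a), mul_comm (h a), mul_assoc]
    exact I.mul_mem_left _ (hst a ha1 ha2 I hI1 hI2 g hg)
  -- the coefficients
  set C₁ : Set K := ⋃ i, (μ i).coefs with hC₁
  have hCfin : C₁.Finite := Set.finite_iUnion fun i => (μ i).coefs_finite
  -- the family
  obtain ⟨P, Dn, g, ⟨hD0, hP⟩, hg0, hspec⟩ := specY (k := AlgebraicClosure k₀) hω.generates y S hyS
  -- a number field
  obtain ⟨k, hkfin, hk, hkr⟩ := descend2 k₀ (S := Pf '' C₁ ∪ Qf '' C₁ ∪ Set.range u ∪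
    Set.range (fun z : Fin m × Fin N => v z.1 z.2) ∪ {H})
    (((((hCfin.image _).union (hCfin.image _)).union (Set.finite_range _)).union
      (Set.finite_range _)).union (Set.finite_singleton _))
    (S' := {G, g} ∪ (Dn.coeffs : Set _) ∪ ⋃ l, ((P l).coeffs : Set _))
    (((Set.toFinite _).union (Finset.finite_toSet _)).union
      (Set.finite_iUnion fun l => Finset.finite_toSet _))
  have hku : ∀ i, ∃ P' : MvPolynomial (Fin N) k,
      MvPolynomial.map (algebraMap k (AlgebraicClosure k₀)) P' = u i := fun i =>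
    hk _ (Or.inl (Or.inl (Or.inr ⟨i, rfl⟩)))
  have hkv : ∀ i l, ∃ P' : MvPolynomial (Fin N) k,
      MvPolynomial.map (algebraMap k (AlgebraicClosure k₀)) P' = v i l := fun i l =>
    hk _ (Or.inl (Or.inr ⟨(i, l), rfl⟩))
  have hkH : ∃ P' : MvPolynomial (Fin N) k,
      MvPolynomial.map (algebraMap k (AlgebraicClosure k₀)) P' = H := hk _ (Or.inr rfl)
  choose u' hu' using hku
  choose v' hv' using hkv
  obtain ⟨H', hH'⟩ := hkH
  obtain ⟨G', hG'⟩ := hkr G (Or.inl (Or.inl (Or.inl rfl)))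
  obtain ⟨g', hg'⟩ := hkr g (Or.inl (Or.inl (Or.inr rfl)))
  have hnest : ∀ Q : MvPolynomial (Fin r) (MvPolynomial (Fin q) (AlgebraicClosure k₀)),
      (∀ c ∈ Q.coeffs, ∃ P' : MvPolynomial (Fin q) k,
        MvPolynomial.map (algebraMap k (AlgebraicClosure k₀)) P' = c) →
      ∃ Q' : MvPolynomial (Fin r) (MvPolynomial (Fin q) k),
        MvPolynomial.map (MvPolynomial.map (algebraMap k (AlgebraicClosure k₀))) Q' = Q := by
    intro Q hQ
    have h1 : Q ∈ Set.range (MvPolynomial.map (σ := Fin r)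
        (MvPolynomial.map (σ := Fin q) (algebraMap k (AlgebraicClosure k₀)))) := by
      rw [MvPolynomial.mem_range_map_iff_coeffs_subset]
      intro c hc
      obtain ⟨P', hP'⟩ := hQ c hc
      exact ⟨P', hP'⟩
    obtain ⟨Q', hQ'⟩ := h1
    exact ⟨Q', hQ'⟩
  obtain ⟨Dn', hDn'⟩ := hnest Dn fun c hc => hkr c (Or.inl (Or.inr hc))
  choose P' hP' using fun l => hnest (P l) fun c hc => hkr c (Or.inr (Set.mem_iUnion.2 ⟨l, hc⟩))
  have hck : CharZero k := charZero_of_injective_algebraMap (algebraMap k₀ k).injective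
  have hkfg : FG k := hk₀.of_finite
  have hkcount : Countable k := hkfg.countable
  set F' : MvPolynomial (Fin N) k := MvPolynomial.map (algebraMap k₀ k) F with hF'
  have hF'Ω : MvPolynomial.map (algebraMap k (AlgebraicClosure k₀)) F' = FΩ := by
    rw [hF', MvPolynomial.map_map]
    rfl
  have hl₀' : pderiv l₀ F' ≠ 0 := by
    rw [hF', pderiv_map, Ne, map_eq_zero_iff _ (map_injective _ (RingHom.injective _))]
    exact hl₀
  have hφ : ∀ P : MvPolynomial (Fin N) k,
      eval₂ ((algebraMap (AlgebraicClosure k₀) K).comp (algebraMap k (AlgebraicClosure k₀))) x P =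
        aeval x (MvPolynomial.map (algebraMap k (AlgebraicClosure k₀)) P) := by
    intro P
    rw [aeval_def, eval₂_map]
  have hφ0 : ∀ P : MvPolynomial (Fin N) k,
      eval₂ ((algebraMap (AlgebraicClosure k₀) K).comp (algebraMap k (AlgebraicClosure k₀))) x P =
        0 ↔ F' ∣ P := by
    intro P
    rw [hφ, hx1, ← hF'Ω]
    exact ⟨W572.G.dvd_descent F' P, fun h => _root_.map_dvd _ h⟩
  set φ : MvPolynomial (Fin N) k →+* K := eval₂Hom ((algebraMap (AlgebraicClosure k₀) K).comp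
    (algebraMap k (AlgebraicClosure k₀))) x with hφdef
  -- the parameter space
  have hG'irr : Irreducible G' := by
    apply irreducible_of_map (algebraMap k (AlgebraicClosure k₀))
    rw [hG']; exact hG
  obtain ⟨l₁, hl₁⟩ := exists_pderiv_ne hG'irr
  obtain ⟨p, hp, σ, w₀, hgenw, hnear⟩ := exists_generic hkfg hG'irr hl₁
  have hcq : Countable (MvPolynomial (Fin q) k) := countable_mv k q
  obtain ⟨t₀, ht₀⟩ := exists_t1 (A := MvPolynomial (Fin q) k) (eval₂Hom σ w₀) r
  have hvan : ∀ c : MvPolynomial (Fin q) k, eval₂ σ w₀ c = 0 ↔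
      aeval ω (MvPolynomial.map (algebraMap k (AlgebraicClosure k₀)) c) = 0 := by
    intro c
    rw [hgenw, hω.zero_iff, ← hG']
    exact ⟨fun h => _root_.map_dvd _ h, W572.G.dvd_descent G' c⟩
  obtain ⟨c₀, hc₀⟩ : ∃ c₀ : MvPolynomial (Fin r) (MvPolynomial (Fin q) k) →+*
    MvPolynomial (Fin r) (MvPolynomial (Fin q) (AlgebraicClosure k₀)),
    c₀ = MvPolynomial.map (MvPolynomial.map (algebraMap k (AlgebraicClosure k₀))) := ⟨_, rfl⟩
  obtain ⟨ρ₂, hρ₂⟩ : ∃ ρ₂ : MvPolynomial (Fin r) (MvPolynomial (Fin q) k) →+* Rt r E,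
    ρ₂ = (ΦR (k := AlgebraicClosure k₀) ω r).comp c₀ := ⟨_, rfl⟩
  have hzero : ∀ Q : MvPolynomial (Fin r) (MvPolynomial (Fin q) k),
      val2 σ w₀ t₀ Q = 0 ↔ ρ₂ Q = 0 := by
    intro Q
    have h1 : ρ₂ Q = 0 ↔ ∀ m, eval₂ σ w₀ (coeff m Q) = 0 := by
      rw [hρ₂, RingHom.comp_apply, ΦR_apply, map_eq_zero_iff _ (rt_inj E r), hc₀,
        MvPolynomial.map_map]
      constructor
      · intro h m
        have h2 := congrArg (coeff m) h
        rw [coeff_map, coeff_zero] at h2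
        rw [hvan]
        exact h2
      · intro h
        ext m
        rw [coeff_map, coeff_zero]
        exact (hvan _).1 (h m)
    rw [h1]
    constructor
    · intro h m
      have h2 := congrArg (coeff m) (ht₀ Q h)
      rwa [coeff_map, coeff_zero] at h2
    · intro h
      have h2 : MvPolynomial.map (eval₂Hom σ w₀) Q = 0 := by
        ext m
        rw [coeff_map, coeff_zero]
        exact h m
      rw [val2_apply, ← eval_map, h2, map_zero]
  have hD₁ : val2 σ w₀ t₀ Dn' ≠ 0 := by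
    rw [Ne, hzero, hρ₂, RingHom.comp_apply, hc₀, hDn']
    exact hD0
  obtain ⟨X₀, hX₀⟩ : ∃ X₀ : Fin N → ℚ_[p], ∀ l, X₀ l =
    val2 σ w₀ t₀ (P' l) / val2 σ w₀ t₀ Dn' := ⟨_, fun _ => rfl⟩
  have hclear := fun Q : MvPolynomial (Fin N) k => clearA (CC k q r) P' Dn' Q
  choose Qc mc hQc using hclear
  -- the values over `Rt r E`
  have hρ₂CC : ρ₂.comp (CC k q r) = (algebraMap (AlgebraicClosure k₀) (Rt r E)).comp
      (algebraMap k (AlgebraicClosure k₀)) := by
    apply RingHom.ext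
    intro a
    rw [RingHom.comp_apply, hρ₂, RingHom.comp_apply, hc₀, CC, RingHom.comp_apply, map_C, map_C,
      ΦR_C, MvPolynomial.aeval_C, RingHom.comp_apply, ← IsScalarTower.algebraMap_apply]
  have hyv : ∀ l, y l * ρ₂ Dn' = ρ₂ (P' l) := by
    intro l
    rw [hρ₂, RingHom.comp_apply, RingHom.comp_apply, hc₀, hDn', hP']
    exact hP l
  have hρ₂D : ρ₂ Dn' ≠ 0 := by rw [Ne, ← hzero]; exact hD₁
  have hQ2 : ∀ Q : MvPolynomial (Fin N) k, ρ₂ (Qc Q) = 0 ↔ φ Q = 0 := by
    intro Q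
    have h1 := hQc Q ρ₂ y hyv
    have h2 : eval₂ (ρ₂.comp (CC k q r)) y Q =
        aeval y (MvPolynomial.map (algebraMap k (AlgebraicClosure k₀)) Q) := by
      rw [hρ₂CC, aeval_def, eval₂_map]
    rw [← h1, h2, mul_eq_zero, hy, or_iff_left (pow_ne_zero _ hρ₂D), ← hφ]
    exact Iff.rfl
  have hX₀v : ∀ l, X₀ l * val2 σ w₀ t₀ Dn' = val2 σ w₀ t₀ (P' l) := fun l => by
    rw [hX₀, div_mul_cancel₀ _ hD₁]
  have hgenX' : ∀ Q, tau σ X₀ Q = 0 ↔ φ Q = 0 := by
    intro Q
    have h1 := hQc Q (val2 σ w₀ t₀) X₀ hX₀v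
    rw [val2_CC] at h1
    rw [← hQ2, ← hzero, ← h1, mul_eq_zero, or_iff_left (pow_ne_zero _ hD₁), tau_apply]
  -- the neighbourhood
  have hOk' : ∀ i, (μ i).Ok ((algebraMap (AlgebraicClosure k₀) K).comp
      (algebraMap k (AlgebraicClosure k₀))) F' x := fun i =>
    hOk i k _ F' ((hφ0 F').2 dvd_rfl)
  have hreg : ∀ i, ∀ f ∈ (μ i).coefs, f ∈ Oc φ (tau σ X₀) := by
    intro i f hf
    have hfC : f ∈ C₁ := Set.mem_iUnion.2 ⟨i, hf⟩
    obtain ⟨P₁, hP₁⟩ := hk (Pf f) (Or.inl (Or.inl (Or.inl (Or.inl ⟨f, hfC, rfl⟩))))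
    obtain ⟨Q₁, hQ₁⟩ := hk (Qf f) (Or.inl (Or.inl (Or.inl (Or.inr ⟨f, hfC, rfl⟩))))
    have hφP : φ P₁ = aeval x (Pf f) := by rw [← hP₁]; exact hφ P₁
    have hφQ : φ Q₁ = aeval x (Qf f) := by rw [← hQ₁]; exact hφ Q₁
    have hQ0 : φ Q₁ ≠ 0 := by rw [hφQ]; exact hQf f
    have hQt : tau σ X₀ Q₁ ≠ 0 := fun h0 => hQ0 ((hgenX' _).1 h0)
    exact ⟨tau σ X₀ P₁ / tau σ X₀ Q₁, P₁, Q₁, IsUnit.mk0 _ hQt, hQ0, by
      rw [hφP, hφQ]; exact hPf f, div_mul_cancel₀ _ hQt⟩
  have hgoodn : ∀ᶠ X in 𝓝 X₀, ∀ i, eval₂ σ X F' = 0 → Good φ (tau σ X) (μ i) := by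
    rw [eventually_all]
    intro i
    have h1 := good_near σ hgenX' (μ i) (hOk' i).hw (hOk' i).hB (hreg i) (hinf i)
    rw [eventually_inf_principal] at h1
    filter_upwards [h1] with X hX hXF
    apply hX
    intro Q hQ
    obtain ⟨Q₂, rfl⟩ := (hφ0 Q).1 hQ
    rw [map_mul]
    have : tau σ X F' = 0 := hXF
    rw [this, zero_mul]
  have hnz : ∀ Q : MvPolynomial (Fin N) k, φ Q ≠ 0 → ∀ᶠ X in 𝓝 X₀, eval₂ σ X Q ≠ 0 := by
    intro Q hQ
    have h1 : tau σ X₀ Q ≠ 0 := fun h0 => hQ ((hgenX' _).1 h0)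
    exact ((cont_tau σ Q).tendsto X₀).eventually_ne h1
  have hun : ∀ᶠ X in 𝓝 X₀, ∀ i, eval₂ σ X (u' i) ≠ 0 := by
    rw [eventually_all]
    intro i
    apply hnz
    show eval₂ _ _ _ ≠ 0
    rw [hφ, hu']
    exact hu0 i
  have hHn : ∀ᶠ X in 𝓝 X₀, eval₂ σ X (H' * pderiv l₀ F') ≠ 0 := by
    apply hnz
    rw [map_mul]
    refine mul_ne_zero ?_ ?_
    · show eval₂ _ _ _ ≠ 0
      rw [hφ, hH']
      exact hH0
    · show eval₂ _ _ _ ≠ 0
      rw [Ne, hφ0]
      exact Pool.Agent.Y742.GG.not_dvd_pderiv hl₀'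
  obtain ⟨U, hU1, hU2, hU3⟩ := _root_.eventually_nhds_iff.1 (hgoodn.and (hun.and hHn))
  -- the parameters near the generic parameters
  have hcont : ContinuousAt (fun (z : (Fin q → ℚ_[p]) × (Fin r → ℚ_[p])) (l : Fin N) =>
      val2 σ z.1 z.2 (P' l) / val2 σ z.1 z.2 Dn') (w₀, t₀) :=
    continuousAt_pi.2 fun l => (cont_val2 σ (P' l)).continuousAt.div
      (cont_val2 σ Dn').continuousAt hD₁
  have hX₀' : (fun l : Fin N => val2 σ w₀ t₀ (P' l) / val2 σ w₀ t₀ Dn') = X₀ :=
    funext fun l => (hX₀ l).symm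
  have hnbd : ∀ᶠ z in 𝓝 (w₀, t₀), (fun l : Fin N =>
      val2 σ z.1 z.2 (P' l) / val2 σ z.1 z.2 Dn') ∈ U ∧ eval₂ σ z.1 g' ≠ 0 := by
    refine Filter.Eventually.and ?_ ?_
    · exact hcont.preimage_mem_nhds (by
        change U ∈ 𝓝 (fun l : Fin N => val2 σ w₀ t₀ (P' l) / val2 σ w₀ t₀ Dn')
        rw [hX₀']; exact hU2.mem_nhds hU3)
    · have hc : Continuous fun z : (Fin q → ℚ_[p]) × (Fin r → ℚ_[p]) => eval₂ σ z.1 g' := by
        have h : (fun z : (Fin q → ℚ_[p]) × (Fin r → ℚ_[p]) => eval₂ σ z.1 g') =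
            fun z => eval z.1 (MvPolynomial.map σ g') := by
          funext z
          rw [eval_map]
        rw [h]
        exact (MvPolynomial.continuous_eval _).comp continuous_fst
      refine hc.continuousAt.eventually_ne ?_
      change eval₂ σ w₀ g' ≠ 0
      rw [Ne, hvan, hg']
      exact hg0
  rw [nhds_prod_eq, Filter.eventually_prod_iff] at hnbd
  obtain ⟨pa, hpa, pb, hpb, hab⟩ := hnbd
  obtain ⟨B', hB'1, hB'2, hB'3⟩ := _root_.eventually_nhds_iff.1 hpb
  obtain ⟨w', hw'A, hw'G, hw'alg⟩ := hnear _ hpa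
  -- the field of the point
  let : Algebra k ℚ_[p] := σ.toAlgebra
  have hfinX : Finite (Set.range w') := Set.finite_range w'
  have hint : ∀ z ∈ Set.range w', IsIntegral k z := by
    rintro _ ⟨l, rfl⟩
    obtain ⟨f, hf0, hf⟩ := hw'alg l
    exact IsAlgebraic.isIntegral ⟨f, hf0, hf⟩
  set M := IntermediateField.adjoin k (Set.range w') with hM
  have hMfin : FiniteDimensional k M := IntermediateField.finiteDimensional_adjoin hint
  have hMalg : Algebra.IsAlgebraic k M := Algebra.IsAlgebraic.of_finite k M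
  let e : M →ₐ[k] AlgebraicClosure k₀ := IsAlgClosed.lift
  let : Algebra M (AlgebraicClosure k₀) := e.toRingHom.toAlgebra
  have hcomp : (algebraMap M (AlgebraicClosure k₀)).comp (algebraMap k M) =
      algebraMap k (AlgebraicClosure k₀) := e.comp_algebraMap
  let σ₁ : M →+* ℚ_[p] := M.val.toRingHom
  have hσ₁ : σ₁.comp (algebraMap k M) = σ := rfl
  have hdr : DenseRange σ₁ := by
    refine (denseRange_rat (p := p)).mono ?_
    rintro _ ⟨q, rfl⟩
    exact ⟨(q : M), map_ratCast σ₁ q⟩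
  let wM : Fin q → M := fun l => ⟨w' l, IntermediateField.subset_adjoin _ _ ⟨l, rfl⟩⟩
  have hwM : (fun l => σ₁ (wM l)) = w' := rfl
  -- values at points over `M`
  have hvM : ∀ c : MvPolynomial (Fin q) k, σ₁ (eval₂ (algebraMap k M) wM c) = eval₂ σ w' c := by
    intro c
    rw [eval₂_comp_left]
    rfl
  have hvΩ : ∀ c : MvPolynomial (Fin q) k,
      algebraMap M (AlgebraicClosure k₀) (eval₂ (algebraMap k M) wM c) =
      eval (fun l => algebraMap M (AlgebraicClosure k₀) (wM l))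
        (MvPolynomial.map (algebraMap k (AlgebraicClosure k₀)) c) := by
    intro c
    rw [eval₂_comp_left, hcomp, eval_map]
    rfl
  have hcpt : ∀ Q : MvPolynomial (Fin q) (AlgebraicClosure k₀), aeval ω Q = 0 →
      aeval (fun l => algebraMap M (AlgebraicClosure k₀) (wM l)) Q = 0 := by
    intro Q hQ
    obtain ⟨Q', rfl⟩ := (hω.zero_iff Q).1 hQ
    rw [map_mul, aeval_eq_eval, ← hG', ← hvΩ]
    have h1 : eval₂ (algebraMap k M) wM G' = 0 := by
      apply σ₁.injective
      rw [hvM, map_zero]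
      exact hw'G
    rw [h1, map_zero, zero_mul]
  have hcg : aeval (fun l => algebraMap M (AlgebraicClosure k₀) (wM l)) g ≠ 0 := by
    rw [aeval_eq_eval, ← hg', ← hvΩ]
    intro h0
    have h1 := (map_eq_zero _).1 h0
    have h2 := hvM g'
    rw [h1, map_zero] at h2
    exact (hab hw'A (hpb.self_of_nhds)).2 h2.symm
  obtain ⟨hDc, hindc⟩ := hspec _ hcpt hcg
  obtain ⟨c, hc⟩ : ∃ c : Fin q → AlgebraicClosure k₀,
    c = fun l => algebraMap M (AlgebraicClosure k₀) (wM l) := ⟨_, rfl⟩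
  rw [← hc] at hDc hindc hcpt
  -- density in the base
  have hbase : ∀ R : MvPolynomial (Fin N) (AlgebraicClosure k₀), (R.vars : Set (Fin N)) ⊆ S →
      (∀ y ∈ Tset F' (algebraMap k M) σ₁ U,
        eval (fun l => algebraMap M (AlgebraicClosure k₀) (y l)) R = 0) → R = 0 := by
    intro R hRS hR
    by_contra hR0
    obtain ⟨z, hz⟩ : ∃ z : Fin N → Rt r (AlgebraicClosure k₀),
      ∀ l, z l = evE c r (P l) / evE c r Dn := ⟨_, fun _ => rfl⟩
    have hRθ : aeval z R ≠ 0 := by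
      rw [← mem_supported, supported_eq_range_rename, AlgHom.mem_range] at hRS
      obtain ⟨R₁, rfl⟩ := hRS
      rw [aeval_rename]
      intro h0
      apply hR0
      have h2 : (z ∘ fun i : S => (i : Fin N)) =
          fun i : S => evE c r (P i) / evE c r Dn := funext fun i => hz i
      rw [h2] at h0
      have h1 : R₁ = 0 := hindc (by rw [map_zero]; exact h0)
      rw [h1, map_zero]
    obtain ⟨b, hb⟩ : ∃ b : MvPolynomial (Fin r) (AlgebraicClosure k₀),
      b = MvPolynomial.map (evc c) Dn := ⟨_, rfl⟩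
    obtain ⟨a, ha⟩ : ∃ a : Fin N → MvPolynomial (Fin r) (AlgebraicClosure k₀),
      ∀ l, a l = MvPolynomial.map (evc c) (P l) := ⟨_, fun _ => rfl⟩
    have hbR : algebraMap (MvPolynomial (Fin r) (AlgebraicClosure k₀))
        (Rt r (AlgebraicClosure k₀)) b ≠ 0 := by
      rw [hb, ← evE_apply]
      exact hDc
    have hb0 : b ≠ 0 := by
      rintro h0
      rw [h0, map_zero] at hbR
      exact hbR rfl
    have hzab : ∀ l, z l * algebraMap (MvPolynomial (Fin r) (AlgebraicClosure k₀))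
        (Rt r (AlgebraicClosure k₀)) b = algebraMap (MvPolynomial (Fin r) (AlgebraicClosure k₀))
        (Rt r (AlgebraicClosure k₀)) (a l) := by
      intro l
      rw [hb, ha, ← evE_apply, ← evE_apply, hz, div_mul_cancel₀ _ hDc]
    obtain ⟨G₁, m₁, h11, h12⟩ := clearR (k := AlgebraicClosure k₀) hzab R
    have hG₁ : G₁ ≠ 0 := by
      rintro rfl
      rw [map_zero] at h11
      exact mul_ne_zero hRθ (pow_ne_zero _ hbR) h11
    obtain ⟨t, ht1, ht2⟩ := exists_t (k := M) (Ω := AlgebraicClosure k₀) σ₁ hB'2 ⟨t₀, hB'3⟩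
      (mul_ne_zero hG₁ hb0)
    rw [map_mul] at ht2
    have hbt' : eval (fun i => algebraMap M (AlgebraicClosure k₀) (t i)) b ≠ 0 :=
      right_ne_zero_of_mul ht2
    have hvalΩ : ∀ Q : MvPolynomial (Fin r) (MvPolynomial (Fin q) k),
        algebraMap M (AlgebraicClosure k₀) (val2 (algebraMap k M) wM t Q) =
        eval (fun i => algebraMap M (AlgebraicClosure k₀) (t i))
          (MvPolynomial.map (evc c) (MvPolynomial.map
            (MvPolynomial.map (algebraMap k (AlgebraicClosure k₀))) Q)) := by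
      intro Q
      rw [← val2_comp, hcomp, val2_apply, MvPolynomial.map_map, eval_map]
      congr 1
      apply MvPolynomial.ringHom_ext
      · intro a
        rw [coe_eval₂Hom, eval₂_C, RingHom.comp_apply, map_C, evc_apply, MvPolynomial.aeval_C]
        rfl
      · intro i
        rw [coe_eval₂Hom, eval₂_X, RingHom.comp_apply, map_X, evc_apply, MvPolynomial.aeval_X, hc]
    have hDt : val2 (algebraMap k M) wM t Dn' ≠ 0 := by
      intro h0
      apply hbt'
      rw [hb, ← hDn', ← hvalΩ, h0, map_zero]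
    obtain ⟨y₁, hy₁⟩ : ∃ y₁ : Fin N → M, ∀ l, y₁ l =
      val2 (algebraMap k M) wM t (P' l) / val2 (algebraMap k M) wM t Dn' := ⟨_, fun _ => rfl⟩
    have hy₁v : ∀ l, y₁ l * val2 (algebraMap k M) wM t Dn' =
        val2 (algebraMap k M) wM t (P' l) := fun l => by
      rw [hy₁, div_mul_cancel₀ _ hDt]
    have hyab : ∀ l, algebraMap M (AlgebraicClosure k₀) (y₁ l) *
        eval (fun i => algebraMap M (AlgebraicClosure k₀) (t i)) b =
        eval (fun i => algebraMap M (AlgebraicClosure k₀) (t i)) (a l) := by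
      intro l
      rw [hb, ← hDn', ← hvalΩ, ← map_mul, hy₁v, hvalΩ, hP', ha]
    have h1 := h12 _ _ hyab
    have hyT : y₁ ∈ Tset F' (algebraMap k M) σ₁ U := by
      refine ⟨?_, ?_⟩
      · have h2 := hQc F' (val2 (algebraMap k M) wM t) y₁ hy₁v
        rw [val2_CC] at h2
        have h3 : val2 (algebraMap k M) wM t (Qc F') = 0 := by
          have h4 : ρ₂ (Qc F') = 0 := (hQ2 F').2 ((hφ0 F').2 dvd_rfl)
          have h5 : MvPolynomial.map (eval₂Hom (algebraMap k M) wM) (Qc F') = 0 := by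
            refine MvPolynomial.ext _ _ fun m => ?_
            rw [coeff_map, coeff_zero, coe_eval₂Hom]
            rw [hρ₂, RingHom.comp_apply, ΦR_apply, map_eq_zero_iff _ (rt_inj E r), hc₀,
              MvPolynomial.map_map] at h4
            have h6 := congrArg (coeff m) h4
            rw [coeff_map, coeff_zero, RingHom.comp_apply] at h6
            have h7 : aeval ω (MvPolynomial.map (algebraMap k (AlgebraicClosure k₀))
              (coeff m (Qc F'))) = 0 := h6
            have h8 := hcpt _ h7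
            rw [hc, aeval_eq_eval, ← hvΩ] at h8
            exact (map_eq_zero (algebraMap M (AlgebraicClosure k₀))).1 h8
          rw [val2_apply, ← eval_map, h5, map_zero]
        rw [h3] at h2
        exact (mul_eq_zero.1 h2).resolve_right (pow_ne_zero _ hDt)
      · have h4 := (hab hw'A (hB'1 _ ht1)).1
        have h5 : (fun l : Fin N => val2 σ w' (fun i => σ₁ (t i)) (P' l) /
            val2 σ w' (fun i => σ₁ (t i)) Dn') = fun l => σ₁ (y₁ l) := by
          funext l
          have h6 : ∀ Q : MvPolynomial (Fin r) (MvPolynomial (Fin q) k),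
              val2 σ w' (fun i => σ₁ (t i)) Q = σ₁ (val2 (algebraMap k M) wM t Q) := by
            intro Q
            rw [← val2_comp]
            rfl
          rw [h6, h6, hy₁, map_div₀]
        rw [← h5]
        exact h4
    have h4 := hR y₁ hyT
    rw [aeval_eq_eval, h4, zero_mul] at h1
    exact left_ne_zero_of_mul ht2 h1.symm
  refine ⟨e.fieldRange.restrictScalars k₀, ?_, fun P hP => ?_⟩
  · have h1 : FiniteDimensional k e.fieldRange :=
      (AlgEquiv.ofInjectiveField e).toLinearEquiv.finiteDimensional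
    exact FiniteDimensional.trans k₀ k e.fieldRange
  · rw [← hF'Ω, ← hcomp]
    refine dens_rel (M := M) (Ω := AlgebraicClosure k₀) (algebraMap k M) σ₁ hdr (x := x)
      (F := F') ?_ ?_ hU2 μ ?_ ?_ u' v' ?_ ?_ ?_ S l₀ hS₀ hl₀' H' ?_ ?_ hbase P ?_
    · rw [hcomp, hF'Ω]; exact hF
    · rw [hcomp]; exact hφ0
    · rw [hcomp]; exact hOk'
    · rw [hcomp, hσ₁]
      intro i X hX
      exact (hU1 X hX).1 i
    · rw [hcomp]
      intro i l
      rw [hφ, hφ, hv', hu', huv, hd]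
    · rw [hcomp]
      intro i
      rw [hφ, hu']
      exact hu0 i
    · rw [hσ₁]
      intro i X hX
      exact (hU1 X hX).2.1 i
    · rw [hcomp, hF'Ω, hH']
      intro I hI1 hI2
      refine hstH I hI1 fun i g hg => ?_
      have := hI2 i g hg
      simpa only [hv'] using this
    · rw [hσ₁]
      intro X hX
      exact (hU1 X hX).2.2
    · intro y hy
      apply hP
      · intro l
        exact ⟨y l, rfl⟩
      · rw [← hF'Ω, ← hcomp, eval_map]
        have := eval₂_comp_left (algebraMap M (AlgebraicClosure k₀)) (algebraMap k M) y F'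
        rw [hy.1, map_zero] at this
        exact this.symm

end Pool.Agent.U207.PD
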