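import Pool.Agent.U207.PD.Mult

/-! Good points are the points at which countably many polynomials do not vanish. -/

set_option autoImplicit false

open Pool.Agent.Y720.MZ Pool.Agent.Y742.GG

namespace Pool.Agent.U207.PD

universe v

section rg

variable {S K : Type*} [CommRing S] [Field K] {φ : S →+* K}

theorem rg_nat {M : Type v} [Field M] {τ : S →+* M} (n : ℕ) : Rg φ τ (n : K) (n : M) := by
  have h := Rg.of (φ := φ) (τ := τ) (n : S)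
  rwa [map_natCast, map_natCast] at h

theorem rg_two {M : Type v} [Field M] {τ : S →+* M} : Rg φ τ (2 : K) (2 : M) := by
  have h := rg_nat (φ := φ) (τ := τ) 2
  rwa [Nat.cast_ofNat, Nat.cast_ofNat] at h

theorem rg_four {M : Type v} [Field M] {τ : S →+* M} : Rg φ τ (4 : K) (4 : M) := by
  have h := rg_nat (φ := φ) (τ := τ) 4
  rwa [Nat.cast_ofNat, Nat.cast_ofNat] at h

theorem rg_dc {M : Type v} [Field M] {τ : S →+* M} (hk : ∀ s, φ s = 0 → τ s = 0)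
    {w q₁ q₂ q₃ q₄ : K} {w' q₁' q₂' q₃' q₄' : M} (hw : Rg φ τ w w') (h₁ : Rg φ τ q₁ q₁')
    (h₂ : Rg φ τ q₂ q₂') (h₃ : Rg φ τ q₃ q₃') (h₄ : Rg φ τ q₄ q₄') :
    Rg φ τ (dc (w ^ 2) q₁ q₂ q₃ q₄) (dc (w' ^ 2) q₁' q₂' q₃' q₄') := by
  have h5 := ev_spec hk (dc ((⟨_, w', hw⟩ : Oc φ τ) ^ 2) ⟨_, q₁', h₁⟩ ⟨_, q₂', h₂⟩ ⟨_, q₃', h₃⟩
    ⟨_, q₄', h₄⟩)
  have e1 : ((dc ((⟨_, w', hw⟩ : Oc φ τ) ^ 2) ⟨_, q₁', h₁⟩ ⟨_, q₂', h₂⟩ ⟨_, q₃', h₃⟩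
      ⟨_, q₄', h₄⟩ : Oc φ τ) : K) = dc (w ^ 2) q₁ q₂ q₃ q₄ := by
    have h6 := Pool.Agent.Y742.GG.map_dc (Oc φ τ).subtype ((⟨_, w', hw⟩ : Oc φ τ) ^ 2)
      ⟨_, q₁', h₁⟩ ⟨_, q₂', h₂⟩ ⟨_, q₃', h₃⟩ ⟨_, q₄', h₄⟩
    rw [map_pow] at h6
    exact h6.symm
  rw [e1, ← Pool.Agent.Y742.GG.map_dc, map_pow] at h5
  rw [ev_eq hk (f := ⟨w, w', hw⟩) hw, ev_eq hk (f := ⟨q₁, q₁', h₁⟩) h₁,
    ev_eq hk (f := ⟨q₂, q₂', h₂⟩) h₂, ev_eq hk (f := ⟨q₃, q₃', h₃⟩) h₃,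
    ev_eq hk (f := ⟨q₄, q₄', h₄⟩) h₄] at h5
  exact h5

end rg

section poly

open MvPolynomial

variable {Ω K : Type} [Field Ω] [Field K] [Algebra Ω K] {N : ℕ}

/-- a polynomial which makes finitely many functions regular and invertible -/
theorem poly_of_finite {x : Fin N → K} (hx : ∀ f : K, ∃ P Q : MvPolynomial (Fin N) Ω,
    aeval x Q ≠ 0 ∧ f * aeval x Q = aeval x P) (A : Finset K) :
    ∃ T : MvPolynomial (Fin N) Ω, aeval x T ≠ 0 ∧ ∀ {M : Type} [Field M] [Algebra Ω M]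
      (z : Fin N → M), aeval z T ≠ 0 → ∀ f ∈ A,
        f ∈ Oc ((aeval x : MvPolynomial (Fin N) Ω →ₐ[Ω] K) : MvPolynomial (Fin N) Ω →+* K)
          ((aeval z : MvPolynomial (Fin N) Ω →ₐ[Ω] M) : MvPolynomial (Fin N) Ω →+* M) ∧
        f⁻¹ ∈ Oc ((aeval x : MvPolynomial (Fin N) Ω →ₐ[Ω] K) : MvPolynomial (Fin N) Ω →+* K)
          ((aeval z : MvPolynomial (Fin N) Ω →ₐ[Ω] M) : MvPolynomial (Fin N) Ω →+* M) := by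
  classical
  choose Pf Qf hQ hP using hx
  refine ⟨∏ f ∈ A, Qf f * if f = 0 then 1 else Pf f, ?_, ?_⟩
  · rw [map_prod]
    refine Finset.prod_ne_zero_iff.2 fun f _ => ?_
    rw [map_mul]
    refine mul_ne_zero (hQ f) ?_
    split_ifs with hf
    · rw [map_one]
      exact one_ne_zero
    · rw [← hP]
      exact mul_ne_zero hf (hQ f)
  · intro M _ _ z hz f hf
    rw [map_prod] at hz
    have h1 := Finset.prod_ne_zero_iff.1 hz f hf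
    rw [map_mul] at h1
    have h2 : aeval z (Qf f) ≠ 0 := left_ne_zero_of_mul h1
    refine ⟨⟨aeval z (Pf f) / aeval z (Qf f), Pf f, Qf f, IsUnit.mk0 _ h2, hQ f, hP f,
      div_mul_cancel₀ _ h2⟩, ?_⟩
    by_cases hf0 : f = 0
    · rw [hf0, inv_zero]
      exact ⟨0, Rg.zero⟩
    · have h3 := right_ne_zero_of_mul h1
      rw [if_neg hf0] at h3
      refine ⟨aeval z (Qf f) / aeval z (Pf f), Qf f, Pf f, IsUnit.mk0 _ h3, ?_, ?_,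
        div_mul_cancel₀ _ h3⟩
      · change aeval x (Pf f) ≠ 0
        rw [← hP]
        exact mul_ne_zero hf0 (hQ f)
      · change f⁻¹ * aeval x (Pf f) = aeval x (Qf f)
        rw [← hP, ← mul_assoc, inv_mul_cancel₀ hf0, one_mul]

/-- the countably many polynomials -/
theorem exists_T [CharZero K] [DecidableEq K] {x : Fin N → K}
    (hx : ∀ f : K, ∃ P Q : MvPolynomial (Fin N) Ω, aeval x Q ≠ 0 ∧ f * aeval x Q = aeval x P)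
    (μ : Mv K N) (hw : μ.w ≠ 0) (hB : μ.B.coeff 0 + μ.B'.coeff 0 * μ.w ≠ 0)
    (hinf : dc (μ.w ^ 2) μ.q₁ μ.q₂ μ.q₃ μ.q₄ ≠ 0 → ∀ h, ∀ n : ℕ, n ≠ 0 →
      n • (.some (xs μ.w μ.q₁ μ.q₂) (ys μ.w μ.q₁ μ.q₂ μ.q₃) h :
        Pt μ.q₂ (rb μ.w μ.q₁ μ.q₃ μ.q₄) (rc μ.w μ.q₁ μ.q₂ μ.q₃ μ.q₄)) ≠ 0) :
    ∃ T : ℕ → MvPolynomial (Fin N) Ω, (∀ n, aeval x (T n) ≠ 0) ∧
      ∀ {M : Type} [Field M] [DecidableEq M] [Algebra Ω M] (z : Fin N → M),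
        (∀ P : MvPolynomial (Fin N) Ω, aeval x P = 0 → aeval z P = 0) →
        (∀ n, aeval z (T n) ≠ 0) →
        Good ((aeval x : MvPolynomial (Fin N) Ω →ₐ[Ω] K) : MvPolynomial (Fin N) Ω →+* K)
          ((aeval z : MvPolynomial (Fin N) Ω →ₐ[Ω] M) : MvPolynomial (Fin N) Ω →+* M) μ ∧
        (dc (μ.w ^ 2) μ.q₁ μ.q₂ μ.q₃ μ.q₄ ≠ 0 →
          dc (μ.w ^ 2) μ.q₁ μ.q₂ μ.q₃ μ.q₄ ∈
            Oc ((aeval x : MvPolynomial (Fin N) Ω →ₐ[Ω] K) : MvPolynomial (Fin N) Ω →+* K)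
            ((aeval z : MvPolynomial (Fin N) Ω →ₐ[Ω] M) : MvPolynomial (Fin N) Ω →+* M) ∧
          (dc (μ.w ^ 2) μ.q₁ μ.q₂ μ.q₃ μ.q₄)⁻¹ ∈
            Oc ((aeval x : MvPolynomial (Fin N) Ω →ₐ[Ω] K) : MvPolynomial (Fin N) Ω →+* K)
            ((aeval z : MvPolynomial (Fin N) Ω →ₐ[Ω] M) : MvPolynomial (Fin N) Ω →+* M)) := by
  classical
  obtain ⟨A₀, hA₀⟩ : ∃ A₀ : Finset K, A₀ = μ.coefs_finite.toFinset ∪
    {μ.B.coeff 0 + μ.B'.coeff 0 * μ.w, dc (μ.w ^ 2) μ.q₁ μ.q₂ μ.q₃ μ.q₄, 4 * μ.w ^ 2, 2 * μ.w} :=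
    ⟨_, rfl⟩
  have hA : ∀ n : ℕ, ∃ A : Finset K, n ≠ 0 → dc (μ.w ^ 2) μ.q₁ μ.q₂ μ.q₃ μ.q₄ ≠ 0 →
      ∀ {M : Type} [Field M] [DecidableEq M] (τ : MvPolynomial (Fin N) Ω →+* M),
        (∀ s, ((aeval x : MvPolynomial (Fin N) Ω →ₐ[Ω] K) : MvPolynomial (Fin N) Ω →+* K) s = 0 →
          τ s = 0) → (∀ f ∈ A, f ∈ Oc ((aeval x : MvPolynomial (Fin N) Ω →ₐ[Ω] K) :
            MvPolynomial (Fin N) Ω →+* K) τ ∧ f⁻¹ ∈ Oc ((aeval x : MvPolynomial (Fin N) Ω →ₐ[Ω] K) :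
            MvPolynomial (Fin N) Ω →+* K) τ) → ∀ a' b' c' x' y' : M,
        Rg ((aeval x : MvPolynomial (Fin N) Ω →ₐ[Ω] K) : MvPolynomial (Fin N) Ω →+* K) τ μ.q₂ a' →
        Rg ((aeval x : MvPolynomial (Fin N) Ω →ₐ[Ω] K) : MvPolynomial (Fin N) Ω →+* K) τ
          (rb μ.w μ.q₁ μ.q₃ μ.q₄) b' →
        Rg ((aeval x : MvPolynomial (Fin N) Ω →ₐ[Ω] K) : MvPolynomial (Fin N) Ω →+* K) τ
          (xs μ.w μ.q₁ μ.q₂) x' →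
        Rg ((aeval x : MvPolynomial (Fin N) Ω →ₐ[Ω] K) : MvPolynomial (Fin N) Ω →+* K) τ
          (ys μ.w μ.q₁ μ.q₂ μ.q₃) y' → ∀ h' : (cv a' b' c').toAffine.Nonsingular x' y',
        n • (.some x' y' h' : Pt a' b' c') ≠ 0 := by
    intro n
    by_cases hn : n = 0
    · exact ⟨∅, fun h => absurd hn h⟩
    by_cases hdc : dc (μ.w ^ 2) μ.q₁ μ.q₂ μ.q₃ μ.q₄ = 0
    · exact ⟨∅, fun _ h => absurd hdc h⟩
    have hD : dsc μ.q₂ (rb μ.w μ.q₁ μ.q₃ μ.q₄) (rc μ.w μ.q₁ μ.q₂ μ.q₃ μ.q₄) ≠ 0 := by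
      rw [← dq_eq, dq] at hdc; exact hdc
    have hns := ns_of_dsc hD (s_eqn (q₁ := μ.q₁) (q₂ := μ.q₂) (q₃ := μ.q₃) (q₄ := μ.q₄) hw)
    obtain ⟨A, X, Y, hXY, -, H⟩ := mult_spec.{0}
      (φ := ((aeval x : MvPolynomial (Fin N) Ω →ₐ[Ω] K) : MvPolynomial (Fin N) Ω →+* K))
      hns (hinf hdc hns) n hn
    refine ⟨A, fun _ _ M _ _ τ hk hA a' b' c' x' y' ha hb hx hy h' => ?_⟩
    obtain ⟨X', Y', hXY', -, -, e⟩ := H τ hk hA a' b' c' x' y' ha hb hx hy h'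
    rw [e]
    exact fun h0 => by simp at h0
  choose A hA using hA
  choose T hT hT' using fun B : Finset K => poly_of_finite hx B
  refine ⟨fun n => T (A₀ ∪ A n), fun n => hT _, ?_⟩
  intro M _ _ _ z hz hzT
  obtain ⟨φ, hφ⟩ : ∃ φ : MvPolynomial (Fin N) Ω →+* K,
    φ = ((aeval x : MvPolynomial (Fin N) Ω →ₐ[Ω] K) : MvPolynomial (Fin N) Ω →+* K) := ⟨_, rfl⟩
  obtain ⟨τ, hτ⟩ : ∃ τ : MvPolynomial (Fin N) Ω →+* M,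
    τ = ((aeval z : MvPolynomial (Fin N) Ω →ₐ[Ω] M) : MvPolynomial (Fin N) Ω →+* M) := ⟨_, rfl⟩
  have hk : ∀ s, φ s = 0 → τ s = 0 := by
    rw [hφ, hτ]
    exact hz
  have hO : ∀ n, ∀ f ∈ A₀ ∪ A n, f ∈ Oc φ τ ∧ f⁻¹ ∈ Oc φ τ := by
    intro n f hf
    rw [hφ, hτ]
    exact hT' _ z (hzT n) f hf
  have hA' := hA
  rw [← hφ] at hA'
  rw [← hφ, ← hτ]
  have hO₀ : ∀ f ∈ A₀, f ∈ Oc φ τ ∧ f⁻¹ ∈ Oc φ τ := fun f hf =>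
    hO 0 f (Finset.mem_union_left _ hf)
  have mc : ∀ f ∈ μ.coefs, f ∈ A₀ := fun f hf => by
    rw [hA₀]
    exact Finset.mem_union_left _ (μ.coefs_finite.mem_toFinset.2 hf)
  have mB : μ.B.coeff 0 + μ.B'.coeff 0 * μ.w ∈ A₀ := by
    rw [hA₀]
    exact Finset.mem_union_right _ (by simp)
  have md : dc (μ.w ^ 2) μ.q₁ μ.q₂ μ.q₃ μ.q₄ ∈ A₀ := by
    rw [hA₀]
    exact Finset.mem_union_right _ (by simp)
  have m4 : 4 * μ.w ^ 2 ∈ A₀ := by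
    rw [hA₀]
    exact Finset.mem_union_right _ (by simp)
  have m2 : 2 * μ.w ∈ A₀ := by
    rw [hA₀]
    exact Finset.mem_union_right _ (by simp)
  have mw : μ.w ∈ μ.coefs := by simp [Mv.coefs]
  refine ⟨⟨fun f hf => (hO₀ f (mc f hf)).1, fun r hr => (inv_val hk hw hr (hO₀ _ (mc _ mw)).2).1,
    fun r hr => (inv_val hk hB hr (hO₀ _ mB).2).1, ?_⟩, fun _ => hO₀ _ md⟩
  intro w q₁ q₂ q₃ q₄ h0 h₁ h₂ h₃ h₄ hd h n hn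
  have hdc : dc (μ.w ^ 2) μ.q₁ μ.q₂ μ.q₃ μ.q₄ ≠ 0 := by
    intro h5
    apply hd
    have h6 := rg_dc hk h0 h₁ h₂ h₃ h₄
    rw [h5] at h6
    exact h6.eq_zero hk
  have hb : Rg φ τ (rb μ.w μ.q₁ μ.q₃ μ.q₄) (rb w q₁ q₃ q₄) := by
    unfold rb
    rw [pow_two, pow_two]
    exact (h₁.mul h₃).sub ((rg_four.mul (h0.mul h0)).mul h₄)
  have hX : Rg φ τ (xs μ.w μ.q₁ μ.q₂) (xs w q₁ q₂) := by
    unfold xs
    rw [div_eq_mul_inv, div_eq_mul_inv]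
    refine Rg.sub (Rg.mul ?_ (inv_val hk ?_ ?_ (hO₀ _ m4).2).2) h₂
    · rw [pow_two, pow_two]
      exact h₁.mul h₁
    · exact mul_ne_zero (by norm_num) (pow_ne_zero 2 hw)
    · rw [pow_two, pow_two]
      exact rg_four.mul (h0.mul h0)
  have hY : Rg φ τ (ys μ.w μ.q₁ μ.q₂ μ.q₃) (ys w q₁ q₂ q₃) := by
    unfold ys
    rw [div_eq_mul_inv, div_eq_mul_inv]
    refine Rg.mul ?_ (inv_val hk ?_ ?_ (hO₀ _ m2).2).2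
    · refine (h₁.mul hX).add (Rg.mul ?_ h₃)
      rw [pow_two, pow_two]
      exact rg_two.mul (h0.mul h0)
    · exact mul_ne_zero (by norm_num) hw
    · exact rg_two.mul h0
  exact hA' n hn hdc τ hk (fun f hf => hO n f (Finset.mem_union_right _ hf)) _ _ _ _ _
    h₂ hb hX hY h

end poly

end Pool.Agent.U207.PD
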