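import Pool.Agent.U207.PD.Param
import Pool.Agent.U207.PD.Tpoly
import Pool.Agent.U207.GB.Stab
import Pool.Agent.Y742.GG.Asm

/-! Assembly: potential density from a unirational subvariety which dominates the base. Adapted from
`Pool.Agent.Y742.GG.Asm`. -/

set_option autoImplicit false
set_option linter.unusedSectionVars false

open Pool.Agent.Y720.MZ Filter Topology MvPolynomial Pool.Agent.Y742.GG Pool.Agent.R867.Mov
open Pool.Agent.R867.D

namespace Pool.Agent.U207.PD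

/-- good points over an extension of the field of constants -/
theorem Good.descend {Ω k K M : Type} [Field Ω] [Field k] [Field K] [Field M] [DecidableEq M]
    [Algebra Ω K] [Algebra Ω M] (c : k →+* Ω) {N : ℕ} {x : Fin N → K} {z : Fin N → M} {μ : Mv K N}
    (hG : Good ((aeval x : MvPolynomial (Fin N) Ω →ₐ[Ω] K) : MvPolynomial (Fin N) Ω →+* K)
      ((aeval z : MvPolynomial (Fin N) Ω →ₐ[Ω] M) : MvPolynomial (Fin N) Ω →+* M) μ)
    {φ : MvPolynomial (Fin N) k →+* K} {τ : MvPolynomial (Fin N) k →+* M}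
    (hφ : ∀ P, φ P = aeval x (MvPolynomial.map c P)) (hτ : ∀ P, τ P = aeval z (MvPolynomial.map c P))
    (hreg : ∀ f ∈ μ.coefs, f ∈ Oc φ τ) :
    Good φ τ μ ∧ ∀ f r, Rg φ τ f r →
      Rg ((aeval x : MvPolynomial (Fin N) Ω →ₐ[Ω] K) : MvPolynomial (Fin N) Ω →+* K)
      ((aeval z : MvPolynomial (Fin N) Ω →ₐ[Ω] M) : MvPolynomial (Fin N) Ω →+* M) f r := by
  have key : ∀ f r, Rg φ τ f r →
      Rg ((aeval x : MvPolynomial (Fin N) Ω →ₐ[Ω] K) : MvPolynomial (Fin N) Ω →+* K)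
      ((aeval z : MvPolynomial (Fin N) Ω →ₐ[Ω] M) : MvPolynomial (Fin N) Ω →+* M) f r := by
    rintro f r ⟨P, Q, h1, h2, h3, h4⟩
    refine ⟨MvPolynomial.map c P, MvPolynomial.map c Q, ?_, ?_, ?_, ?_⟩
    · change IsUnit (aeval z (MvPolynomial.map c Q))
      rw [← hτ]
      exact h1
    · change aeval x (MvPolynomial.map c Q) ≠ 0
      rw [← hφ]
      exact h2
    · change f * aeval x (MvPolynomial.map c Q) = aeval x (MvPolynomial.map c P)
      rw [← hφ, ← hφ]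
      exact h3
    · change r * aeval z (MvPolynomial.map c Q) = aeval z (MvPolynomial.map c P)
      rw [← hτ, ← hτ]
      exact h4
  exact ⟨⟨hreg, fun r hr => hG.w0 r (key _ _ hr), fun r hr => hG.B0 r (key _ _ hr),
    fun w q₁ q₂ q₃ q₄ h0 h₁ h₂ h₃ h₄ => hG.inf w q₁ q₂ q₃ q₄ (key _ _ h0) (key _ _ h₁) (key _ _ h₂)
      (key _ _ h₃) (key _ _ h₄)⟩, key⟩

/-- **Assembly.** -/
theorem asm_rel (k₀ : Type) [Field k₀] [CharZero k₀] (hk₀ : FG k₀) {N m : ℕ}
    (F : MvPolynomial (Fin N) k₀)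
    (hF : Irreducible (MvPolynomial.map (algebraMap k₀ (AlgebraicClosure k₀)) F))
    {K : Type} [Field K] [DecidableEq K] [Algebra (AlgebraicClosure k₀) K] {x : Fin N → K}
    (hx1 : ∀ P : MvPolynomial (Fin N) (AlgebraicClosure k₀), aeval x P = 0 ↔
      MvPolynomial.map (algebraMap k₀ (AlgebraicClosure k₀)) F ∣ P)
    (hx2 : IntermediateField.adjoin (AlgebraicClosure k₀) (Set.range x) = ⊤)
    {S : Set (Fin N)} {l₀ : Fin N} (hS₀ : l₀ ∉ S) (hl₀ : pderiv l₀ F ≠ 0)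
    (D : Fin m → Derivation (AlgebraicClosure k₀) K K) (μ : Fin m → Mv K N)
    (hd : ∀ i l, (μ i).d l = D i (x l))
    (hOk : ∀ i, ∀ (k : Type) [Field k] (c : k →+* AlgebraicClosure k₀)
      (G : MvPolynomial (Fin N) k), eval₂ ((algebraMap (AlgebraicClosure k₀) K).comp c) x G = 0 →
        (μ i).Ok ((algebraMap (AlgebraicClosure k₀) K).comp c) G x)
    (hinf : ∀ i, dc ((μ i).w ^ 2) (μ i).q₁ (μ i).q₂ (μ i).q₃ (μ i).q₄ ≠ 0 → ∀ h, ∀ n : ℕ, n ≠ 0 →
      n • (.some (xs (μ i).w (μ i).q₁ (μ i).q₂) (ys (μ i).w (μ i).q₁ (μ i).q₂ (μ i).q₃) h :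
        Pt (μ i).q₂ (rb (μ i).w (μ i).q₁ (μ i).q₃ (μ i).q₄)
          (rc (μ i).w (μ i).q₁ (μ i).q₂ (μ i).q₃ (μ i).q₄)) ≠ 0)
    (hgen : ∀ a, a ∉ S → a ≠ l₀ → ∀ g : LieSubalgebra (AlgebraicClosure k₀)
      (Derivation (AlgebraicClosure k₀) K K), (∀ D ∈ g, ∀ c : K, c • D ∈ g) → (∀ i, D i ∈ g) →
      ∀ E : Derivation (AlgebraicClosure k₀) K K, (∀ l, l ≠ a → l ≠ l₀ → E (x l) = 0) → E ∈ g) :
    ∃ T : ℕ → MvPolynomial (Fin N) (AlgebraicClosure k₀), (∀ n, aeval x (T n) ≠ 0) ∧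
      ∀ (r : ℕ) (θ : Fin N → Rt r (AlgebraicClosure k₀)),
        aeval θ (MvPolynomial.map (algebraMap k₀ (AlgebraicClosure k₀)) F) = 0 →
        (∀ n, aeval θ (T n) ≠ 0) →
        AlgebraicIndependent (AlgebraicClosure k₀) (fun s : S => θ s) →
        ∃ L : IntermediateField k₀ (AlgebraicClosure k₀), FiniteDimensional k₀ L ∧
          ∀ P : MvPolynomial (Fin N) (AlgebraicClosure k₀),
            (∀ y : Fin N → AlgebraicClosure k₀, (∀ l, y l ∈ L) →
              eval y (MvPolynomial.map (algebraMap k₀ (AlgebraicClosure k₀)) F) = 0 →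
                eval y P = 0) →
            MvPolynomial.map (algebraMap k₀ (AlgebraicClosure k₀)) F ∣ P := by
  classical
  have hcK : CharZero K := charZero_of_injective_algebraMap
    (algebraMap (AlgebraicClosure k₀) K).injective
  have hfrac : ∀ f : K, ∃ P Q : MvPolynomial (Fin N) (AlgebraicClosure k₀), aeval x Q ≠ 0 ∧
      f * aeval x Q = aeval x P := by
    intro f
    have hf : f ∈ IntermediateField.adjoin (AlgebraicClosure k₀) (Set.range x) := by
      rw [hx2]; trivial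
    rw [IntermediateField.mem_adjoin_range_iff] at hf
    obtain ⟨r, s, hrs⟩ := hf
    by_cases hs : aeval x s = 0
    · rw [hs, div_zero] at hrs
      exact ⟨0, 1, by simp, by simp [hrs]⟩
    · exact ⟨r, s, hs, by rw [hrs, div_mul_cancel₀ _ hs]⟩
  have hfrac' := hfrac
  choose Pf Qf hQf hPf using hfrac
  set FΩ := MvPolynomial.map (algebraMap k₀ (AlgebraicClosure k₀)) F with hFΩ
  -- lifts of the derivations
  set u : Fin m → MvPolynomial (Fin N) (AlgebraicClosure k₀) := fun i =>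
    ∏ l, Qf (D i (x l)) with hu
  set v : Fin m → Fin N → MvPolynomial (Fin N) (AlgebraicClosure k₀) := fun i l =>
    Pf (D i (x l)) * ∏ a ∈ Finset.univ.erase l, Qf (D i (x a)) with hv
  have hu0 : ∀ i, aeval x (u i) ≠ 0 := by
    intro i
    rw [hu, map_prod]
    exact Finset.prod_ne_zero_iff.2 fun l _ => hQf _
  have huv : ∀ i l, aeval x (v i l) = aeval x (u i) * D i (x l) := by
    intro i l
    simp only [hu, hv]
    rw [← Finset.mul_prod_erase _ _ (Finset.mem_univ l), map_mul, map_mul, ← hPf]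
    ring
  have hst : ∀ a : Fin N, ∃ h : MvPolynomial (Fin N) (AlgebraicClosure k₀), aeval x h ≠ 0 ∧
      (a ∉ S → a ≠ l₀ → ∀ I : Ideal (MvPolynomial (Fin N) (AlgebraicClosure k₀)), FΩ ∈ I →
        (∀ i, ∀ g ∈ I, ∑ l, pderiv l g * v i l ∈ I) →
        ∀ g ∈ I, h * (pderiv l₀ FΩ * pderiv a g - pderiv a FΩ * pderiv l₀ g) ∈ I) := by
    intro a
    by_cases h1 : a ∉ S ∧ a ≠ l₀
    · obtain ⟨h, hh, hst⟩ := Pool.Agent.U207.GB.stable_rel hfrac' hx1 D l₀ a
        (hgen a h1.1 h1.2) u v hu0 huv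
      exact ⟨h, hh, fun _ _ => hst⟩
    · exact ⟨1, by simp, fun h2 h3 => absurd ⟨h2, h3⟩ h1⟩
  choose h hh hst using hst
  obtain ⟨H, hH⟩ : ∃ H, H = ∏ a, h a := ⟨_, rfl⟩
  have hH0 : aeval x H ≠ 0 := by
    rw [hH, map_prod]
    exact Finset.prod_ne_zero_iff.2 fun l _ => hh _
  have hstH : ∀ I : Ideal (MvPolynomial (Fin N) (AlgebraicClosure k₀)), FΩ ∈ I →
      (∀ i, ∀ g ∈ I, ∑ l, pderiv l g * v i l ∈ I) → ∀ a, a ∉ S → a ≠ l₀ → ∀ g ∈ I,
        H * (pderiv l₀ FΩ * pderiv a g - pderiv a FΩ * pderiv l₀ g) ∈ I := by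
    intro I hI1 hI2 a ha1 ha2 g hg
    rw [hH, ← Finset.mul_prod_erase _ _ (Finset.mem_univ a), mul_comm (h a), mul_assoc]
    exact I.mul_mem_left _ (hst a ha1 ha2 I hI1 hI2 g hg)
  have hl₀Ω : aeval x (pderiv l₀ FΩ) ≠ 0 := by
    rw [Ne, hx1]
    refine Pool.Agent.Y742.GG.not_dvd_pderiv ?_
    rw [hFΩ, pderiv_map, Ne, map_eq_zero_iff _ (map_injective _ (RingHom.injective _))]
    exact hl₀
  -- the coefficients
  set C : Set K := ⋃ i, (μ i).coefs with hC
  have hCfin : C.Finite := Set.finite_iUnion fun i => (μ i).coefs_finite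
  -- the countably many conditions
  have hOk₀ : ∀ i, (μ i).w ≠ 0 ∧ (μ i).B.coeff 0 + (μ i).B'.coeff 0 * (μ i).w ≠ 0 := by
    intro i
    have h1 := hOk i _ (RingHom.id (AlgebraicClosure k₀)) FΩ (by
      rw [RingHom.comp_id]
      exact (hx1 FΩ).2 dvd_rfl)
    exact ⟨h1.hw, h1.hB⟩
  have hTi := fun i => exists_T hfrac' (μ i) (hOk₀ i).1 (hOk₀ i).2 (hinf i)
  choose Ti hTi1 hTi2 using hTi
  obtain ⟨T₀, hT₀⟩ : ∃ T₀ : MvPolynomial (Fin N) (AlgebraicClosure k₀), T₀ =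
    H * pderiv l₀ FΩ * (∏ i, u i) * ∏ f ∈ hCfin.toFinset, Qf f := ⟨_, rfl⟩
  have hT₀0 : aeval x T₀ ≠ 0 := by
    rw [hT₀, map_mul, map_mul, map_mul, map_prod, map_prod]
    exact mul_ne_zero (mul_ne_zero (mul_ne_zero hH0 hl₀Ω)
      (Finset.prod_ne_zero_iff.2 fun i _ => hu0 i)) (Finset.prod_ne_zero_iff.2 fun f _ => hQf f)
  refine ⟨fun n => T₀ * ∏ i, Ti i n, fun n => ?_, ?_⟩
  · rw [map_mul, map_prod]
    exact mul_ne_zero hT₀0 (Finset.prod_ne_zero_iff.2 fun i _ => hTi1 i n)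
  intro r θ hθF hθT hθS
  have hθk : ∀ P : MvPolynomial (Fin N) (AlgebraicClosure k₀), aeval x P = 0 → aeval θ P = 0 := by
    intro P hP
    obtain ⟨G, rfl⟩ := (hx1 P).1 hP
    rw [map_mul, hθF, zero_mul]
  have hθT0 : aeval θ T₀ ≠ 0 := by
    have h1 := hθT 0
    rw [map_mul] at h1
    exact left_ne_zero_of_mul h1
  have hθTi : ∀ i n, aeval θ (Ti i n) ≠ 0 := by
    intro i n
    have h1 := hθT n
    rw [map_mul, map_prod] at h1
    exact Finset.prod_ne_zero_iff.1 (right_ne_zero_of_mul h1) i (Finset.mem_univ i)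
  rw [hT₀, map_mul, map_mul, map_mul, map_prod, map_prod] at hθT0
  have hθQ : ∀ f ∈ C, aeval θ (Qf f) ≠ 0 := fun f hf =>
    Finset.prod_ne_zero_iff.1 (right_ne_zero_of_mul hθT0) f (hCfin.mem_toFinset.2 hf)
  have hθu : ∀ i, aeval θ (u i) ≠ 0 := fun i => Finset.prod_ne_zero_iff.1
    (right_ne_zero_of_mul (left_ne_zero_of_mul hθT0)) i (Finset.mem_univ i)
  have hθl : aeval θ (pderiv l₀ FΩ) ≠ 0 :=
    right_ne_zero_of_mul (left_ne_zero_of_mul (left_ne_zero_of_mul hθT0))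
  have hθH : aeval θ H ≠ 0 :=
    left_ne_zero_of_mul (left_ne_zero_of_mul (left_ne_zero_of_mul hθT0))
  obtain ⟨a, b, hb, hab⟩ := common_den θ
  -- a number field
  obtain ⟨k, hkfin, hk, hkr⟩ := descend2 k₀ (S := Pf '' C ∪ Qf '' C ∪ Set.range u ∪
    Set.range (fun z : Fin m × Fin N => v z.1 z.2) ∪ {H})
    (((((hCfin.image _).union (hCfin.image _)).union (Set.finite_range _)).union
      (Set.finite_range _)).union (Set.finite_singleton _)) (S' := Set.range a ∪ {b})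
    ((Set.finite_range a).union (Set.finite_singleton _))
  have hku : ∀ i, ∃ P' : MvPolynomial (Fin N) k,
      MvPolynomial.map (algebraMap k (AlgebraicClosure k₀)) P' = u i := fun i =>
    hk _ (Or.inl (Or.inl (Or.inr ⟨i, rfl⟩)))
  have hkv : ∀ i l, ∃ P' : MvPolynomial (Fin N) k,
      MvPolynomial.map (algebraMap k (AlgebraicClosure k₀)) P' = v i l := fun i l =>
    hk _ (Or.inl (Or.inr ⟨(i, l), rfl⟩))
  have hkH : ∃ P' : MvPolynomial (Fin N) k,
      MvPolynomial.map (algebraMap k (AlgebraicClosure k₀)) P' = H := hk _ (Or.inr rfl)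
  choose u' hu' using hku
  choose v' hv' using hkv
  obtain ⟨H', hH'⟩ := hkH
  choose a' ha' using fun l => hkr (a l) (Or.inl ⟨l, rfl⟩)
  obtain ⟨b', hb'⟩ := hkr b (Or.inr rfl)
  have hck : CharZero k := charZero_of_injective_algebraMap (algebraMap k₀ k).injective
  have hkfg : FG k := hk₀.of_finite
  set F' : MvPolynomial (Fin N) k := MvPolynomial.map (algebraMap k₀ k) F with hF'
  have hF'Ω : MvPolynomial.map (algebraMap k (AlgebraicClosure k₀)) F' = FΩ := by
    rw [hF', MvPolynomial.map_map]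
    rfl
  have hl₀' : pderiv l₀ F' ≠ 0 := by
    rw [hF', pderiv_map, Ne, map_eq_zero_iff _ (map_injective _ (RingHom.injective _))]
    exact hl₀
  have hφ : ∀ P : MvPolynomial (Fin N) k,
      eval₂ ((algebraMap (AlgebraicClosure k₀) K).comp (algebraMap k (AlgebraicClosure k₀))) x P =
        aeval x (MvPolynomial.map (algebraMap k (AlgebraicClosure k₀)) P) := by
    intro P
    rw [aeval_def, eval₂_map]
  have hφ0 : ∀ P : MvPolynomial (Fin N) k,
      eval₂ ((algebraMap (AlgebraicClosure k₀) K).comp (algebraMap k (AlgebraicClosure k₀))) x P =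
        0 ↔ F' ∣ P := by
    intro P
    rw [hφ, hx1, ← hF'Ω]
    exact ⟨W572.G.dvd_descent F' P, fun h => _root_.map_dvd _ h⟩
  obtain ⟨p, hp, ⟨σ⟩⟩ := exists_emb_fg k hkfg
  obtain ⟨t₀, ht₀⟩ := exists_t0 hkfg.countable σ r
  -- the point with coordinates in the field of rational functions over `k`
  have hb'0 : b' ≠ 0 := by
    rintro rfl
    rw [map_zero] at hb'
    exact hb hb'.symm
  let e : Rt r k →+* ℚ_[p] := IsFractionRing.lift (A := MvPolynomial (Fin r) k)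
    (g := eval₂Hom σ t₀) ((injective_iff_map_eq_zero _).2 fun P hP => ht₀ P hP)
  have he : ∀ P : MvPolynomial (Fin r) k, e (algebraMap _ _ P) = eval₂ σ t₀ P := fun P =>
    IsFractionRing.lift_algebraMap _ P
  let ι : Rt r k →+* Rt r (AlgebraicClosure k₀) := mapRt (algebraMap k (AlgebraicClosure k₀)) r
  have hbr : algebraMap (MvPolynomial (Fin r) k) (Rt r k) b' ≠ 0 := by
    rw [Ne, map_eq_zero_iff _ (IsFractionRing.injective (MvPolynomial (Fin r) k) (Rt r k))]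
    exact hb'0
  have hbR : algebraMap (MvPolynomial (Fin r) (AlgebraicClosure k₀))
      (Rt r (AlgebraicClosure k₀)) b ≠ 0 := by
    rw [Ne, map_eq_zero_iff _ (IsFractionRing.injective (MvPolynomial (Fin r) (AlgebraicClosure k₀))
      (Rt r (AlgebraicClosure k₀)))]
    exact hb
  obtain ⟨θ', hθ'⟩ : ∃ θ' : Fin N → Rt r k, ∀ l, θ' l =
    algebraMap (MvPolynomial (Fin r) k) (Rt r k) (a' l) /
      algebraMap (MvPolynomial (Fin r) k) (Rt r k) b' := ⟨_, fun _ => rfl⟩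
  have hιθ : ∀ l, ι (θ' l) = θ l := by
    intro l
    rw [hθ', map_div₀]
    change mapRt _ r _ / mapRt _ r _ = _
    rw [mapRt_poly, mapRt_poly, ha', hb', ← hab, mul_div_cancel_right₀ _ hbR]
  obtain ⟨τ', hτ'⟩ : ∃ τ' : MvPolynomial (Fin N) k →+* Rt r k,
    τ' = eval₂Hom (algebraMap k (Rt r k)) θ' := ⟨_, rfl⟩
  have hιτ : ∀ P, ι (τ' P) = aeval θ (MvPolynomial.map (algebraMap k (AlgebraicClosure k₀)) P) := by
    intro P
    have h1 : ι.comp τ' = ((aeval θ : MvPolynomial (Fin N) (AlgebraicClosure k₀) →ₐ[_] _) :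
        MvPolynomial (Fin N) (AlgebraicClosure k₀) →+* _).comp
        (MvPolynomial.map (algebraMap k (AlgebraicClosure k₀))) := by
      apply MvPolynomial.ringHom_ext
      · intro c
        rw [RingHom.comp_apply, RingHom.comp_apply, map_C, hτ', coe_eval₂Hom, eval₂_C]
        change mapRt _ r _ = aeval θ (MvPolynomial.C _)
        rw [mapRt_C, aeval_C]
      · intro l
        rw [RingHom.comp_apply, RingHom.comp_apply, map_X, hτ', coe_eval₂Hom, eval₂_X, hιθ]
        exact (aeval_X θ l).symm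
    exact congrArg (fun f : MvPolynomial (Fin N) k →+* _ => f P) h1
  obtain ⟨X₀, hX₀⟩ : ∃ X₀ : Fin N → ℚ_[p], X₀ = fun l => e (θ' l) := ⟨_, rfl⟩
  have htau : tau σ X₀ = e.comp τ' := by
    apply MvPolynomial.ringHom_ext
    · intro c
      rw [tau_apply, eval₂_C, RingHom.comp_apply, hτ', coe_eval₂Hom, eval₂_C,
        IsScalarTower.algebraMap_apply k (MvPolynomial (Fin r) k) (Rt r k), he,
        MvPolynomial.algebraMap_eq, eval₂_C]
    · intro l
      rw [tau_apply, eval₂_X, RingHom.comp_apply, hτ', coe_eval₂Hom, eval₂_X, hX₀]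
  set φ : MvPolynomial (Fin N) k →+* K := eval₂Hom ((algebraMap (AlgebraicClosure k₀) K).comp
    (algebraMap k (AlgebraicClosure k₀))) x with hφdef
  have hkτ : ∀ P, φ P = 0 → τ' P = 0 := by
    intro P hP
    apply ι.injective
    rw [hιτ, map_zero]
    apply hθk
    rw [← hφ]
    exact hP
  have hkX : ∀ P, φ P = 0 → tau σ X₀ P = 0 := by
    intro P hP
    rw [htau, RingHom.comp_apply, hkτ P hP, map_zero]
  have hne : ∀ P, aeval θ (MvPolynomial.map (algebraMap k (AlgebraicClosure k₀)) P) ≠ 0 →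
      tau σ X₀ P ≠ 0 := by
    intro P hP h0
    apply hP
    rw [htau, RingHom.comp_apply, map_eq_zero] at h0
    rw [← hιτ, h0, map_zero]
  have hOk' : ∀ i, (μ i).Ok ((algebraMap (AlgebraicClosure k₀) K).comp
      (algebraMap k (AlgebraicClosure k₀))) F' x := fun i =>
    hOk i k _ F' ((hφ0 F').2 dvd_rfl)
  -- regularity
  have hregι : ∀ i, ∀ f ∈ (μ i).coefs, f ∈ Oc φ (ι.comp τ') := by
    intro i f hf
    have hfC : f ∈ C := Set.mem_iUnion.2 ⟨i, hf⟩
    obtain ⟨P', hP'⟩ := hk (Pf f) (Or.inl (Or.inl (Or.inl (Or.inl ⟨f, hfC, rfl⟩))))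
    obtain ⟨Q', hQ'⟩ := hk (Qf f) (Or.inl (Or.inl (Or.inl (Or.inr ⟨f, hfC, rfl⟩))))
    have hφP : φ P' = aeval x (Pf f) := by rw [← hP']; exact hφ P'
    have hφQ : φ Q' = aeval x (Qf f) := by rw [← hQ']; exact hφ Q'
    have hQ0 : φ Q' ≠ 0 := by rw [hφQ]; exact hQf f
    have hQt : ι.comp τ' Q' ≠ 0 := by
      rw [RingHom.comp_apply, hιτ, hQ']
      exact hθQ f hfC
    exact ⟨ι.comp τ' P' / ι.comp τ' Q', P', Q', IsUnit.mk0 _ hQt, hQ0, by
      rw [hφP, hφQ]; exact hPf f, div_mul_cancel₀ _ hQt⟩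
  have hgood : ∀ i, Good φ (tau σ X₀) (μ i) ∧ (dc ((μ i).w ^ 2) (μ i).q₁ (μ i).q₂ (μ i).q₃ (μ i).q₄
      ≠ 0 → ∀ w q₁ q₂ q₃ q₄, Rg φ (tau σ X₀) (μ i).w w →
      Rg φ (tau σ X₀) (μ i).q₁ q₁ → Rg φ (tau σ X₀) (μ i).q₂ q₂ → Rg φ (tau σ X₀) (μ i).q₃ q₃ →
      Rg φ (tau σ X₀) (μ i).q₄ q₄ → dc (w ^ 2) q₁ q₂ q₃ q₄ ≠ 0) := by
    intro i
    obtain ⟨hG, hGd⟩ := hTi2 i θ hθk (hθTi i)
    obtain ⟨hG1, hG2⟩ := Good.descend (algebraMap k (AlgebraicClosure k₀)) hG (φ := φ)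
      (τ := ι.comp τ') (fun P => hφ P) (fun P => hιτ P) (hregι i)
    rw [htau]
    refine ⟨Good.comp e hkτ (Good.of_comp ι hG1), fun hdc w q₁ q₂ q₃ q₄ h0 h₁ h₂ h₃ h₄ hdz => ?_⟩
    have val : ∀ (f : K) (r' : ℚ_[p]), Rg φ (e.comp τ') f r' → ∃ r, Rg φ τ' f r ∧ r' = e r := by
      intro f r' hr'
      obtain ⟨r, hr⟩ := hr'.of_comp e
      exact ⟨r, hr, hr'.unique (fun s hs => by rw [RingHom.comp_apply, hkτ s hs, map_zero])
        (hr.comp e)⟩
    obtain ⟨w', k0, rfl⟩ := val _ _ h0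
    obtain ⟨q₁', k1, rfl⟩ := val _ _ h₁
    obtain ⟨q₂', k2, rfl⟩ := val _ _ h₂
    obtain ⟨q₃', k3, rfl⟩ := val _ _ h₃
    obtain ⟨q₄', k4, rfl⟩ := val _ _ h₄
    rw [← map_pow, Pool.Agent.Y742.GG.map_dc, map_eq_zero] at hdz
    have h5 := rg_dc hkτ k0 k1 k2 k3 k4
    rw [hdz] at h5
    have h6 := hG2 _ _ (h5.comp ι)
    rw [map_zero] at h6
    exact (inv_val (fun s hs => hθk s hs) hdc h6 (hGd hdc).2).1 rfl
  have hgoodn : ∀ᶠ X in 𝓝 X₀, ∀ i, eval₂ σ X F' = 0 → Good φ (tau σ X) (μ i) := by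
    rw [eventually_all]
    intro i
    have h1 := good_near' σ hkX (μ i) (hgood i).1 (hgood i).2
    rw [eventually_inf_principal] at h1
    filter_upwards [h1] with X hX hXF
    apply hX
    intro P hP
    obtain ⟨G, rfl⟩ := (hφ0 P).1 hP
    rw [map_mul]
    have : tau σ X F' = 0 := hXF
    rw [this, zero_mul]
  have hnz : ∀ P : MvPolynomial (Fin N) k,
      aeval θ (MvPolynomial.map (algebraMap k (AlgebraicClosure k₀)) P) ≠ 0 →
        ∀ᶠ X in 𝓝 X₀, eval₂ σ X P ≠ 0 := by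
    intro P hP
    exact ((cont_tau σ P).tendsto X₀).eventually_ne (hne P hP)
  have hun : ∀ᶠ X in 𝓝 X₀, ∀ i, eval₂ σ X (u' i) ≠ 0 := by
    rw [eventually_all]
    intro i
    apply hnz
    rw [hu']
    exact hθu i
  have hHn : ∀ᶠ X in 𝓝 X₀, eval₂ σ X (H' * pderiv l₀ F') ≠ 0 := by
    apply hnz
    rw [map_mul, map_mul, hH', ← pderiv_map, hF'Ω]
    exact mul_ne_zero hθH hθl
  obtain ⟨U, hU1, hU2, hU3⟩ := _root_.eventually_nhds_iff.1 (hgoodn.and (hun.and hHn))
  -- the parameters near `t₀`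
  have hbt : eval₂ σ t₀ b' ≠ 0 := fun h0 => hb'0 (ht₀ b' h0)
  have hcont : ContinuousAt (fun (t : Fin r → ℚ_[p]) (l : Fin N) =>
      eval₂ σ t (a' l) / eval₂ σ t b') t₀ := by
    have hc : ∀ P : MvPolynomial (Fin r) k, Continuous fun t : Fin r → ℚ_[p] => eval₂ σ t P := by
      intro P
      have : (fun t : Fin r → ℚ_[p] => eval₂ σ t P) = fun t => eval t (MvPolynomial.map σ P) := by
        funext t
        rw [eval_map]
      rw [this]
      exact MvPolynomial.continuous_eval _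
    exact continuousAt_pi.2 fun l => (hc (a' l)).continuousAt.div (hc b').continuousAt hbt
  have hX₀' : (fun l : Fin N => eval₂ σ t₀ (a' l) / eval₂ σ t₀ b') = X₀ := by
    rw [hX₀]
    funext l
    rw [hθ', map_div₀, he, he]
  obtain ⟨C', hC'1, hC'2, hC'3⟩ := _root_.mem_nhds_iff.1
    (hcont.preimage_mem_nhds (by rw [hX₀']; exact hU2.mem_nhds hU3))
  have hdr : DenseRange σ := by
    refine (denseRange_rat (p := p)).mono ?_
    rintro _ ⟨q, rfl⟩
    exact ⟨(q : k), map_ratCast σ q⟩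
  -- density in the base
  have hbase : ∀ R : MvPolynomial (Fin N) (AlgebraicClosure k₀), (R.vars : Set (Fin N)) ⊆ S →
      (∀ y ∈ Tset F' (RingHom.id k) σ U,
        eval (fun l => algebraMap k (AlgebraicClosure k₀) (y l)) R = 0) → R = 0 := by
    intro R hRS hR
    by_contra hR0
    have hRθ : aeval θ R ≠ 0 := by
      rw [← mem_supported, supported_eq_range_rename, AlgHom.mem_range] at hRS
      obtain ⟨R₁, rfl⟩ := hRS
      rw [aeval_rename]
      intro h0
      apply hR0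
      have h1 : R₁ = 0 := hθS (by rw [map_zero]; exact h0)
      rw [h1, map_zero]
    obtain ⟨G₁, m₁, h11, h12⟩ := clearR (k := AlgebraicClosure k₀) hab R
    obtain ⟨G₂, m₂, h21, h22⟩ := clearR (k := AlgebraicClosure k₀) hab FΩ
    have hinj := IsFractionRing.injective (MvPolynomial (Fin r) (AlgebraicClosure k₀))
      (Rt r (AlgebraicClosure k₀))
    have hG₂ : G₂ = 0 := by
      apply hinj
      rw [← h21, hθF, zero_mul, map_zero]
    have hG₁ : G₁ ≠ 0 := by
      rintro rfl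
      rw [map_zero] at h11
      exact mul_ne_zero hRθ (pow_ne_zero _ hbR) h11
    obtain ⟨t, ht1, ht2⟩ := exists_t (Ω := AlgebraicClosure k₀) σ hC'2 ⟨t₀, hC'3⟩
      (mul_ne_zero hG₁ hb)
    rw [map_mul] at ht2
    have hbt' : eval (fun i => algebraMap k (AlgebraicClosure k₀) (t i)) b ≠ 0 :=
      right_ne_zero_of_mul ht2
    have hmapt : ∀ P : MvPolynomial (Fin r) k, eval (fun i => algebraMap k (AlgebraicClosure k₀)
        (t i)) (MvPolynomial.map (algebraMap k (AlgebraicClosure k₀)) P) =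
        algebraMap k (AlgebraicClosure k₀) (eval t P) := by
      intro P
      rw [eval_map, ← eval₂_id (g := t), eval₂_comp_left]
      rfl
    have hbt'' : eval t b' ≠ 0 := by
      intro h0
      apply hbt'
      rw [← hb', hmapt, h0, map_zero]
    obtain ⟨y, hy⟩ : ∃ y : Fin N → k, ∀ l, y l = eval t (a' l) / eval t b' := ⟨_, fun _ => rfl⟩
    have hyab : ∀ l, algebraMap k (AlgebraicClosure k₀) (y l) *
        eval (fun i => algebraMap k (AlgebraicClosure k₀) (t i)) b =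
        eval (fun i => algebraMap k (AlgebraicClosure k₀) (t i)) (a l) := by
      intro l
      rw [← hb', ← ha', hmapt, hmapt, ← map_mul, hy, div_mul_cancel₀ _ hbt'']
    have h1 := h12 _ _ hyab
    have h2 := h22 _ _ hyab
    rw [hG₂, map_zero] at h2
    have h3 : aeval (fun l => algebraMap k (AlgebraicClosure k₀) (y l)) FΩ = 0 :=
      (mul_eq_zero.1 h2).resolve_right (pow_ne_zero _ hbt')
    have hyT : y ∈ Tset F' (RingHom.id k) σ U := by
      refine ⟨?_, ?_⟩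
      · apply (algebraMap k (AlgebraicClosure k₀)).injective
        rw [map_zero, ← h3, ← hF'Ω, aeval_eq_eval, eval_map, eval₂_comp_left, RingHom.comp_id]
        rfl
      · have h4 := hC'1 ht1
        have h5 : (fun l : Fin N => eval₂ σ (fun i => σ (t i)) (a' l) /
            eval₂ σ (fun i => σ (t i)) b') = fun l => σ (y l) := by
          funext l
          have h6 : ∀ P : MvPolynomial (Fin r) k, eval₂ σ (fun i => σ (t i)) P = σ (eval t P) := by
            intro P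
            rw [← eval₂_id (g := t), eval₂_comp_left]
            rfl
          rw [h6, h6, hy, map_div₀]
        rw [← h5]
        exact h4
    have h4 := hR y hyT
    rw [aeval_eq_eval, h4, zero_mul] at h1
    exact left_ne_zero_of_mul ht2 h1.symm
  refine ⟨k, hkfin, fun P hP => ?_⟩
  have hcid : (algebraMap k (AlgebraicClosure k₀)).comp (RingHom.id k) =
      algebraMap k (AlgebraicClosure k₀) := RingHom.comp_id _
  have hsid : σ.comp (RingHom.id k) = σ := RingHom.comp_id _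
  rw [← hF'Ω, ← hcid]
  refine dens_rel (M := k) (Ω := AlgebraicClosure k₀) (RingHom.id k) σ hdr (x := x)
    (F := F') ?_ ?_ hU2 μ ?_ ?_ u' v' ?_ ?_ ?_ S l₀ hS₀ hl₀' H' ?_ ?_ ?_ P ?_
  · rw [hcid, hF'Ω]; exact hF
  · rw [hcid]; exact hφ0
  · rw [hcid]; exact hOk'
  · rw [hcid, hsid]
    intro i X hX
    exact (hU1 X hX).1 i
  · rw [hcid]
    intro i l
    rw [hφ, hφ, hv', hu', huv, hd]
  · rw [hcid]
    intro i
    rw [hφ, hu']
    exact hu0 i
  · rw [hsid]
    intro i X hX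
    exact (hU1 X hX).2.1 i
  · rw [hcid, hF'Ω, hH']
    intro I hI1 hI2
    refine hstH I hI1 fun i g hg => ?_
    have := hI2 i g hg
    simpa only [hv'] using this
  · rw [hsid]
    intro X hX
    exact (hU1 X hX).2.2
  · exact hbase
  · intro y hy
    apply hP
    · intro l
      exact (y l).2
    · rw [← hF'Ω, eval_map]
      have := eval₂_comp_left (algebraMap k (AlgebraicClosure k₀)) (RingHom.id k) y F'
      rw [hy.1, map_zero, hcid] at this
      exact this.symm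

end Pool.Agent.U207.PD
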