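import Pool.Agent.Y742.GG.Dens
import Pool.Agent.U207.GB.Orb

/-! Density of points from density in the base. Adapted from `Pool.Agent.Y742.GG.Dens`. -/

set_option autoImplicit false
set_option linter.unusedSectionVars false

open Pool.Agent.Y720.MZ Filter Topology MvPolynomial Pool.Agent.Y742.GG Pool.Agent

namespace Pool.Agent.U207.PD

section core

variable {k : Type*} [Field k] {M : Type*} [Field M] [CharZero M] [DecidableEq M]
  {Ω : Type} [Field Ω] [CharZero Ω] [Algebra M Ω] {p : ℕ} [hp : Fact p.Prime]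
  [DecidableEq ℚ_[p]] {K : Type*} [Field K] [Algebra Ω K] {N m : ℕ}

/-- Density from density in the base. Adapted from `Pool.Agent.Y742.GG.dens_core`. -/
theorem dens_rel (j : k →+* M) (σ : M →+* ℚ_[p]) (hσ : DenseRange σ) {x : Fin N → K}
    {F : MvPolynomial (Fin N) k}
    (hFirr : Irreducible (MvPolynomial.map ((algebraMap M Ω).comp j) F))
    (hF : ∀ P : MvPolynomial (Fin N) k,
      eval₂ ((algebraMap Ω K).comp ((algebraMap M Ω).comp j)) x P = 0 ↔ F ∣ P)
    {U : Set (Fin N → ℚ_[p])} (hU : IsOpen U) (μ : Fin m → Mv K N)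
    (hμ : ∀ i, (μ i).Ok ((algebraMap Ω K).comp ((algebraMap M Ω).comp j)) F x)
    (hgood : ∀ i, ∀ X ∈ U, eval₂ (σ.comp j) X F = 0 →
      Good (eval₂Hom ((algebraMap Ω K).comp ((algebraMap M Ω).comp j)) x) (tau (σ.comp j) X) (μ i))
    (u : Fin m → MvPolynomial (Fin N) k) (v : Fin m → Fin N → MvPolynomial (Fin N) k)
    (huv : ∀ i l, eval₂ ((algebraMap Ω K).comp ((algebraMap M Ω).comp j)) x (v i l) =
      eval₂ ((algebraMap Ω K).comp ((algebraMap M Ω).comp j)) x (u i) * (μ i).d l)
    (hux : ∀ i, eval₂ ((algebraMap Ω K).comp ((algebraMap M Ω).comp j)) x (u i) ≠ 0)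
    (hu : ∀ i, ∀ X ∈ U, eval₂ (σ.comp j) X (u i) ≠ 0)
    (S : Set (Fin N)) (l₀ : Fin N) (hS₀ : l₀ ∉ S) (hl₀ : pderiv l₀ F ≠ 0)
    (h : MvPolynomial (Fin N) k)
    (hst : ∀ I : Ideal (MvPolynomial (Fin N) Ω), MvPolynomial.map ((algebraMap M Ω).comp j) F ∈ I →
      (∀ i, ∀ g ∈ I, ∑ l, pderiv l g * MvPolynomial.map ((algebraMap M Ω).comp j) (v i l) ∈ I) →
      ∀ a, a ∉ S → a ≠ l₀ → ∀ g ∈ I, MvPolynomial.map ((algebraMap M Ω).comp j) h *
        (pderiv l₀ (MvPolynomial.map ((algebraMap M Ω).comp j) F) * pderiv a g -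
          pderiv a (MvPolynomial.map ((algebraMap M Ω).comp j) F) * pderiv l₀ g) ∈ I)
    (hh : ∀ X ∈ U, eval₂ (σ.comp j) X (h * pderiv l₀ F) ≠ 0)
    (hbase : ∀ R : MvPolynomial (Fin N) Ω, (R.vars : Set (Fin N)) ⊆ S →
      (∀ y ∈ Tset F j σ U, eval (fun l => algebraMap M Ω (y l)) R = 0) → R = 0)
    (P : MvPolynomial (Fin N) Ω)
    (hP : ∀ y ∈ Tset F j σ U, eval (fun l => algebraMap M Ω (y l)) P = 0) :
    MvPolynomial.map ((algebraMap M Ω).comp j) F ∣ P := by
  classical
  -- evaluations
  have ev1 : ∀ (y : Fin N → M) (G : MvPolynomial (Fin N) k),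
      eval (fun l => algebraMap M Ω (y l)) (MvPolynomial.map ((algebraMap M Ω).comp j) G) =
        algebraMap M Ω (eval₂ j y G) := by
    intro y G
    rw [eval_map, eval₂_comp_left]
    rfl
  have ev2 : ∀ (y : Fin N → M) (G : MvPolynomial (Fin N) k),
      eval₂ (σ.comp j) (fun l => σ (y l)) G = σ (eval₂ j y G) := by
    intro y G
    rw [eval₂_comp_left]
    rfl
  let I : Ideal (MvPolynomial (Fin N) Ω) :=
    { carrier := {g | ∀ y ∈ Tset F j σ U, eval (fun l => algebraMap M Ω (y l)) g = 0}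
      add_mem' := fun {a b} ha hb y hy => by rw [map_add, ha y hy, hb y hy, add_zero]
      zero_mem' := fun y _ => map_zero _
      smul_mem' := fun c g hg y hy => by
        rw [smul_eq_mul, map_mul, hg y hy, mul_zero] }
  have hI : ∀ g, g ∈ I ↔ ∀ y ∈ Tset F j σ U, eval (fun l => algebraMap M Ω (y l)) g = 0 :=
    fun g => Iff.rfl
  have hFI : MvPolynomial.map ((algebraMap M Ω).comp j) F ∈ I := by
    rw [hI]
    intro y hy
    rw [ev1, hy.1, map_zero]
  -- stability
  have hstab : ∀ i, ∀ g ∈ I,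
      ∑ l, pderiv l g * MvPolynomial.map ((algebraMap M Ω).comp j) (v i l) ∈ I := by
    intro i g hg
    rw [hI]
    intro y hy
    have huy : eval₂ j y (u i) ≠ 0 := by
      intro h0
      apply hu i _ hy.2
      rw [ev2, h0, map_zero]
    set dy : Fin N → M := fun l => eval₂ j y (v i l) / eval₂ j y (u i) with hdy
    have hrg : ∀ l, Rg (eval₂Hom ((algebraMap Ω K).comp ((algebraMap M Ω).comp j)) x)
        (eval₂Hom j y) ((μ i).d l) (dy l) := by
      intro l
      refine ⟨v i l, u i, IsUnit.mk0 _ huy, hux i, ?_, ?_⟩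
      · rw [mul_comm]
        exact (huv i l).symm
      · exact div_mul_cancel₀ _ huy
    have hzero : ∑ l, eval (fun l => algebraMap M Ω (y l)) (pderiv l g) *
        algebraMap M Ω (dy l) = 0 := by
      apply eq_zero_of_functional (M := M)
      intro f
      have h1 := tangent hF j σ hσ hU (hμ i) (hgood i) (h := Lam f g) (by
        intro z hz
        rw [eval_Lam, (hI g).1 hg z hz, map_zero]) hy hrg
      rw [map_sum, ← h1]
      refine Finset.sum_congr rfl fun l _ => ?_
      have hf : ∀ (a : Ω) (c : M), f (a * algebraMap M Ω c) = f a * c := by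
        intro a c
        rw [mul_comm, ← Algebra.smul_def, map_smul, smul_eq_mul, mul_comm]
      rw [pderiv_Lam, eval_Lam, hf]
    rw [map_sum]
    have h2 : ∀ l, eval (fun l => algebraMap M Ω (y l)) (pderiv l g *
        MvPolynomial.map ((algebraMap M Ω).comp j) (v i l)) =
        algebraMap M Ω (eval₂ j y (u i)) * (eval (fun l => algebraMap M Ω (y l)) (pderiv l g) *
        algebraMap M Ω (dy l)) := by
      intro l
      rw [map_mul, ev1]
      have : eval₂ j y (v i l) = eval₂ j y (u i) * dy l := by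
        rw [hdy]; exact (mul_div_cancel₀ _ huy).symm
      rw [this, map_mul]
      ring
    rw [Finset.sum_congr rfl fun l _ => h2 l, ← Finset.mul_sum, hzero, mul_zero]
  have hmain := hst I hFI hstab
  -- polynomials in the other variables
  have hpd : ∀ G : MvPolynomial {l // l ≠ l₀} Ω, pderiv l₀ (rename Subtype.val G) = 0 := by
    intro G
    refine pderiv_eq_zero_of_notMem_vars ?_
    intro h6
    have h7 := vars_rename (Subtype.val : {l // l ≠ l₀} → Fin N) G h6
    rw [Finset.mem_image] at h7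
    obtain ⟨i, -, hi⟩ := h7
    exact i.2 hi
  have hzero := Pool.Agent.U207.GB.zero_of_closed {a : {l // l ≠ l₀} | a.1 ∈ S}
    {G : MvPolynomial {l // l ≠ l₀} Ω | rename Subtype.val G ∈ I} (by
      intro G hG a ha
      have h1 := hmain a ha a.2 _ hG
      rw [hpd, mul_zero, sub_zero, pderiv_rename Subtype.val_injective] at h1
      show rename Subtype.val (pderiv a G) ∈ I
      rw [hI] at h1 ⊢
      intro y hy
      have h2 := h1 y hy
      have e : MvPolynomial.map ((algebraMap M Ω).comp j) h *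
          pderiv l₀ (MvPolynomial.map ((algebraMap M Ω).comp j) F) =
          MvPolynomial.map ((algebraMap M Ω).comp j) (h * pderiv l₀ F) := by
        rw [pderiv_map, map_mul]
      rw [← mul_assoc, e, map_mul, ev1] at h2
      refine (mul_eq_zero.1 h2).resolve_left ?_
      intro h3
      apply hh _ hy.2
      rw [ev2, (map_eq_zero (algebraMap M Ω)).1 h3, map_zero]) (by
      intro G hG hv
      have h1 : rename (Subtype.val : {l // l ≠ l₀} → Fin N) G = 0 := by
        refine hbase _ ?_ fun y hy => (hI _).1 hG y hy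
        intro i hi
        have h7 := vars_rename (Subtype.val : {l // l ≠ l₀} → Fin N) G hi
        rw [Finset.mem_image] at h7
        obtain ⟨i', hi', rfl⟩ := h7
        exact hv hi'
      exact (map_eq_zero_iff _ (rename_injective _ Subtype.val_injective)).1 h1)
  by_contra hFP
  have hl₀' : pderiv l₀ (MvPolynomial.map ((algebraMap M Ω).comp j) F) ≠ 0 := by
    rw [pderiv_map, Ne, map_eq_zero_iff _ (map_injective _ (RingHom.injective _))]
    exact hl₀
  obtain ⟨G, hG, A', B', hAB⟩ := W572.G.exists_elim _ P l₀ hFirr hl₀' hFP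
  apply hG
  apply hzero
  show rename Subtype.val G ∈ I
  rw [hAB]
  exact I.add_mem (I.mul_mem_left _ hFI) (I.mul_mem_left _ ((hI P).2 hP))

end core

end Pool.Agent.U207.PD
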