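import Pool.Agent.U207.PD.Cov
import Pool.Agent.U207.PD.Main
import Pool.Agent.U207.PB.Frac

/-! Potential density from coverings by unirational subvarieties which dominate the common base. -/

set_option autoImplicit false

namespace Pool.Agent.U207.PD

open MvPolynomial AlgebraicGeometry CategoryTheory Pool.Agent.Y720.MZ
open Pool.Agent.W572 Pool.Agent.W572.G Pool.Agent.Y742.GG Pool.Agent.Y742 Pool.Agent.R867.Mov
open Pool.Agent.R867.D

/-- **Main theorem for coverings**, with coordinates. -/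
theorem main_covY (k₀ : Type) [Field k₀] [CharZero k₀] (hk₀ : FG k₀) {N m : ℕ}
    (F : MvPolynomial (Fin N) k₀)
    (hF : Irreducible (map (algebraMap k₀ (AlgebraicClosure k₀)) F))
    {K : Type} [Field K] [Algebra (AlgebraicClosure k₀) K] {x : Fin N → K}
    (hx : IsGenericPoint (map (algebraMap k₀ (AlgebraicClosure k₀)) F) x)
    (L : Fin m → IntermediateField (AlgebraicClosure k₀) K)
    (hL : ∀ i, IsDoubleCoverOfLine (L i) ∨ IsEllipticTorsor (L i))
    (S : Set (Fin N)) (hS : AlgebraicIndependent (AlgebraicClosure k₀) (fun i : S => x i))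
    (hinv : ∀ a : K, (∀ i, IsAlgebraic (L i) a) →
      IsAlgebraic (Algebra.adjoin (AlgebraicClosure k₀) (x '' S)) a)
    {q r : ℕ} {G : MvPolynomial (Fin q) (AlgebraicClosure k₀)} (hG : Irreducible G) {E : Type}
    [Field E] [Algebra (AlgebraicClosure k₀) E] {ω : Fin q → E} (hω : IsGenericPoint G ω)
    (z : Fin N → FractionRing (MvPolynomial (Fin r) E))
    (hz : ∀ P : MvPolynomial (Fin N) (AlgebraicClosure k₀), aeval z P = 0 ↔ aeval x P = 0)
    (hzS : AlgebraicIndependent E (fun s : S => z s))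
    {X : Scheme.{0}} (sX : X ⟶ Spec (.of k₀)) (f : (hypersurface F).PartialMap X)
    (hf : IsDominant f.hom) (hfk : f.hom ≫ sX = f.domain.ι ≫ hypersurfaceStr F) :
    PotentiallyDense sX := by
  classical
  have hcK : CharZero K := charZero_of_injective_algebraMap
    (algebraMap (AlgebraicClosure k₀) K).injective
  have hF0x : aeval x (map (algebraMap k₀ (AlgebraicClosure k₀)) F) = 0 :=
    (hx.zero_iff _).2 dvd_rfl
  obtain ⟨l₀, hS₀, hl₀⟩ := Pool.Agent.U207.GB.exists_l0 hF.ne_zero hF0x hS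
  have hl₀' : pderiv l₀ F ≠ 0 := by
    intro h0
    apply hl₀
    rw [pderiv_map, h0, map_zero]
  obtain ⟨n, y, hy⟩ : ∃ (n : ℕ) (y : Fin n → K),
      IsTranscendenceBasis (Pool.Agent.U207.GB.inv L) y := by
    have htop : IntermediateField.adjoin (Pool.Agent.U207.GB.inv L) (Set.range x) = ⊤ := by
      rw [eq_top_iff]
      intro z _
      have h1 : z ∈ IntermediateField.adjoin (AlgebraicClosure k₀) (Set.range x) := by
        rw [hx.generates]; trivial
      have h2 : IntermediateField.adjoin (AlgebraicClosure k₀) (Set.range x) ≤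
          (IntermediateField.adjoin (Pool.Agent.U207.GB.inv L)
            (Set.range x)).restrictScalars (AlgebraicClosure k₀) := by
        rw [IntermediateField.adjoin_le_iff]
        exact IntermediateField.subset_adjoin _ _
      exact h2 h1
    have halg : Algebra.IsAlgebraic (Algebra.adjoin (Pool.Agent.U207.GB.inv L) (Set.range x)) K := by
      rw [← IntermediateField.isAlgebraic_adjoin_iff_top, htop]
      exact ⟨fun a => isAlgebraic_algebraMap
        (⟨a, trivial⟩ : (⊤ : IntermediateField (Pool.Agent.U207.GB.inv L) K))⟩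
    obtain ⟨s, hs, hs'⟩ := exists_isTranscendenceBasis_subset (R := Pool.Agent.U207.GB.inv L)
      (Set.range x)
    have hfin : s.Finite := (Set.finite_range x).subset hs
    have : Finite s := hfin
    let e := Finite.equivFin s
    exact ⟨Nat.card s, fun i => (e.symm i : K), hs'.comp_equiv e.symm⟩
  -- the fibrations with a derivation
  let J : Type := {i : Fin m // ∃ E : Derivation (AlgebraicClosure k₀) K K,
    E ≠ 0 ∧ ∀ a ∈ L i, E a = 0}
  have hJ : Finite J := Subtype.finite
  have hinst : ∀ i : J, ∃ (D : Derivation (AlgebraicClosure k₀) K K) (μ : Mv K N),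
      (∀ E' : Derivation (AlgebraicClosure k₀) K K, (∀ a ∈ L i.1, E' a = 0) →
        ∃ c : K, E' = c • D) ∧ (∀ l, μ.d l = D (x l)) ∧
      (∀ (k : Type) [Field k] (c : k →+* AlgebraicClosure k₀)
      (G : MvPolynomial (Fin N) k), eval₂ ((algebraMap (AlgebraicClosure k₀) K).comp c) x G = 0 →
        μ.Ok ((algebraMap (AlgebraicClosure k₀) K).comp c) G x) ∧
      (dc (μ.w ^ 2) μ.q₁ μ.q₂ μ.q₃ μ.q₄ ≠ 0 → ∀ h, ∀ n : ℕ, n ≠ 0 →
        n • (.some (xs μ.w μ.q₁ μ.q₂) (ys μ.w μ.q₁ μ.q₂ μ.q₃) h :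
          Pt μ.q₂ (rb μ.w μ.q₁ μ.q₃ μ.q₄) (rc μ.w μ.q₁ μ.q₂ μ.q₃ μ.q₄)) ≠ 0) := by
    rintro ⟨i, E, hE, hEL⟩
    rcases hL i with ⟨t, w, Q, ht, hw, hdeg, hQ, hg⟩ | ⟨K', _, _, _, hfin, hgal, a, b, c, X, Y, H⟩
    · obtain ⟨D, hD, hDt, hall⟩ := exists_norm ht hw hQ hg hE hEL
      obtain ⟨μ, h1, h2, h3⟩ := inst x ht hw hdeg hQ hg D hD hDt
      exact ⟨D, μ, hall, h1, h2, h3⟩
    · obtain ⟨E₁, D₁, hE₁, hD₁, hX, hall⟩ := H.norm hE hEL
      obtain ⟨μ, h1, h2, h3⟩ := H.inst x hE₁ hD₁ hX
      refine ⟨-E₁, μ, fun E' hE' => ?_, h1, h2, h3⟩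
      obtain ⟨c, hc⟩ := hall E' hE'
      exact ⟨-c, by rw [hc, neg_smul_neg]⟩
  choose D μ hall hd hOk hinf using hinst
  let e := Finite.equivFin J
  obtain ⟨L', hL', hLd⟩ := asm_cov k₀ hk₀ F hF hx.zero_iff hx.generates hS₀ hl₀'
    (fun i => D (e.symm i)) (fun i => μ (e.symm i)) (fun i => hd _) (fun i => hOk _)
    (fun i => hinf _) (by
      intro k hkS hkl g hg hgD E hE
      refine Pool.Agent.U207.GB.mem_lie L y hy (fun i => ?_) g hg (fun i D' hD' => ?_) E
        (fun a ha => ?_)
      · rcases hL i with h | h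
        · exact CN.curve_double h
        · exact CN.curve_torsor h
      · by_cases h0 : D' = 0
        · rw [h0]
          exact zero_mem _
        · let i' : J := ⟨i, D', h0, hD'⟩
          obtain ⟨c, hc⟩ := hall i' D' hD'
          rw [hc]
          have h1 := hgD (e i')
          rw [Equiv.symm_apply_apply] at h1
          exact hg _ h1 c
      · refine Pool.Agent.U207.GB.der_alg E (x '' S) ?_
          (hinv a (Pool.Agent.U207.GB.mem_inv.mp ha))
        rintro _ ⟨s, hs, rfl⟩
        refine hE s ?_ ?_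
        · rintro rfl
          exact hkS hs
        · rintro rfl
          exact hS₀ hs) hG hω z hz hzS
  exact dense_of_field k₀ F L' hLd sX f hf hfk

end Pool.Agent.U207.PD
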