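import Pool.Agent.U207.PD.Near

/-! Specialization of the multiples of a point of an elliptic curve. -/

set_option autoImplicit false

open Polynomial WeierstrassCurve Pool.Agent.Y720.MZ Pool.Agent.Y742.GG

namespace Pool.Agent.U207.PD

universe v

section formulas

variable {F : Type*} [Field F] [DecidableEq F] {a b c : F}

theorem add_X_ne {X Y x y : F} (h₁ : (cv a b c).toAffine.Nonsingular X Y)
    (h₂ : (cv a b c).toAffine.Nonsingular x y) (hX : X ≠ x) {l : F}
    (hl : l = (Y - y) * (X - x)⁻¹) :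
    ∃ h, (.some X Y h₁ : Pt a b c) + .some x y h₂ =
      .some (l ^ 2 - a - X - x) (-(l * ((l ^ 2 - a - X - x) - X) + Y)) h := by
  have e1 := Affine.Point.add_of_X_ne (h₁ := h₁) (h₂ := h₂) hX
  have e2 : (cv a b c).toAffine.slope X x Y y = l := by
    rw [Affine.slope_of_X_ne hX, hl, div_eq_mul_inv]
  have e3 : (cv a b c).toAffine.addX X x l = l ^ 2 - a - X - x := by
    simp [Affine.addX, cv]
  have e4 : (cv a b c).toAffine.addY X x Y l = -(l * ((l ^ 2 - a - X - x) - X) + Y) := by
    simp [Affine.addY, Affine.negY, Affine.negAddY, e3, cv]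
  have e5 := Affine.nonsingular_add h₁ h₂ fun hxy => hX hxy.left
  simp only [e2, e3, e4] at e1 e5
  exact ⟨e5, e1⟩

theorem add_self {x y : F} (h₁ h₂ : (cv a b c).toAffine.Nonsingular x y) (hy : 2 * y ≠ 0) {l : F}
    (hl : l = (3 * x ^ 2 + 2 * a * x + b) * (2 * y)⁻¹) :
    ∃ h, (.some x y h₁ : Pt a b c) + .some x y h₂ =
      .some (l ^ 2 - a - x - x) (-(l * ((l ^ 2 - a - x - x) - x) + y)) h := by
  have hn : (cv a b c).toAffine.negY x y = -y := by simp [Affine.negY, cv]
  have hy' : y ≠ (cv a b c).toAffine.negY x y := by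
    rw [hn]
    intro h
    apply hy
    linear_combination h
  have e1 := Affine.Point.add_of_Y_ne (h₁ := h₁) (h₂ := h₂) hy'
  have e2 : (cv a b c).toAffine.slope x x y y = l := by
    rw [Affine.slope_of_Y_ne rfl hy', hl, hn, div_eq_mul_inv]
    have e : y - -y = 2 * y := by ring
    rw [e]
    simp [cv]
  have e3 : (cv a b c).toAffine.addX x x l = l ^ 2 - a - x - x := by
    simp [Affine.addX, cv]
  have e4 : (cv a b c).toAffine.addY x x y l = -(l * ((l ^ 2 - a - x - x) - x) + y) := by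
    simp [Affine.addY, Affine.negY, Affine.negAddY, e3, cv]
  have e5 := Affine.nonsingular_add h₁ h₂ fun hxy => hy' hxy.right
  simp only [e2, e3, e4] at e1 e5
  exact ⟨e5, e1⟩

end formulas

section spec

variable {S K : Type*} [CommRing S] [Field K] [DecidableEq K] {φ : S →+* K}

/-- values of inverses -/
theorem inv_val {M : Type v} [Field M] {τ : S →+* M} (hk : ∀ s, φ s = 0 → τ s = 0) {f : K} {r : M}
    (hf : f ≠ 0) (h : Rg φ τ f r) (hi : f⁻¹ ∈ Oc φ τ) : r ≠ 0 ∧ Rg φ τ f⁻¹ r⁻¹ := by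
  obtain ⟨s, hs⟩ := hi
  have h1 := h.mul hs
  rw [mul_inv_cancel₀ hf] at h1
  have h2 : r * s = 1 := h1.unique hk Rg.one
  have h3 : r ≠ 0 := left_ne_zero_of_mul_eq_one h2
  refine ⟨h3, ?_⟩
  rw [← eq_inv_of_mul_eq_one_right h2]
  exact hs

theorem mult_spec {a b c x y : K} (h : (cv a b c).toAffine.Nonsingular x y)
    (hinf : ∀ n : ℕ, n ≠ 0 → n • (.some x y h : Pt a b c) ≠ 0) (n : ℕ) (hn : n ≠ 0) :
    ∃ (A : Finset K) (X Y : K) (hXY : (cv a b c).toAffine.Nonsingular X Y),
      n • (.some x y h : Pt a b c) = .some X Y hXY ∧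
      ∀ {M : Type v} [Field M] [DecidableEq M] (τ : S →+* M), (∀ s, φ s = 0 → τ s = 0) →
        (∀ f ∈ A, f ∈ Oc φ τ ∧ f⁻¹ ∈ Oc φ τ) → ∀ a' b' c' x' y' : M, Rg φ τ a a' → Rg φ τ b b' →
        Rg φ τ x x' → Rg φ τ y y' → ∀ h' : (cv a' b' c').toAffine.Nonsingular x' y',
        ∃ (X' Y' : M) (hXY' : (cv a' b' c').toAffine.Nonsingular X' Y'),
          Rg φ τ X X' ∧ Rg φ τ Y Y' ∧ n • (.some x' y' h' : Pt a' b' c') = .some X' Y' hXY' := by
  classical
  induction n with
  | zero => exact absurd rfl hn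
  | succ n ih =>
    by_cases hn0 : n = 0
    · subst hn0
      refine ⟨∅, x, y, h, by rw [zero_add, one_smul], ?_⟩
      intro M _ _ τ hk hA a' b' c' x' y' ha hb hx hy h'
      exact ⟨x', y', h', hx, hy, by rw [zero_add, one_smul]⟩
    · obtain ⟨A, X, Y, hXY, e1, H⟩ := ih hn0
      have hrg : ∀ {M : Type v} [Field M] {τ : S →+* M} {a' l' X' Y' x' : M} {l : K},
          Rg φ τ a a' → Rg φ τ l l' → Rg φ τ X X' → Rg φ τ Y Y' → Rg φ τ x x' →
          Rg φ τ (l ^ 2 - a - X - x) (l' ^ 2 - a' - X' - x') ∧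
          Rg φ τ (-(l * ((l ^ 2 - a - X - x) - X) + Y))
            (-(l' * ((l' ^ 2 - a' - X' - x') - X') + Y')) := by
        intro M _ τ a' l' X' Y' x' l ha hl hX hY hx
        have h1 : Rg φ τ (l ^ 2 - a - X - x) (l' ^ 2 - a' - X' - x') := by
          rw [pow_two, pow_two]
          exact (((hl.mul hl).sub ha).sub hX).sub hx
        exact ⟨h1, ((hl.mul (h1.sub hX)).add hY).neg⟩
      by_cases hXx : X = x
      · subst hXx
        have hY : Y = y := by
          rcases Affine.Y_eq_of_X_eq hXY.1 h.1 rfl with h1 | h1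
          · exact h1
          · exfalso
            apply hinf (n + 1) (Nat.succ_ne_zero n)
            rw [add_smul, one_smul, e1]
            exact Affine.Point.add_of_Y_eq rfl h1
        subst hY
        have hy2 : 2 * Y ≠ 0 := by
          intro h0
          apply hinf (n + 1) (Nat.succ_ne_zero n)
          rw [add_smul, one_smul, e1]
          refine Affine.Point.add_of_Y_eq rfl ?_
          have hn : (cv a b c).toAffine.negY X Y = -Y := by simp [Affine.negY, cv]
          rw [hn]
          linear_combination h0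
        obtain ⟨hh, e2⟩ := add_self hXY h hy2 rfl
        refine ⟨insert (2 * Y) A, _, _, hh, by rw [add_smul, one_smul, e1, e2], ?_⟩
        intro M _ _ τ hk hA a' b' c' x' y' ha hb hx hy h'
        obtain ⟨X', Y', hXY', hX', hY', e3⟩ := H τ hk
          (fun f hf => hA f (Finset.mem_insert_of_mem hf)) a' b' c' x' y' ha hb hx hy h'
        obtain rfl := hX'.unique hk hx
        obtain rfl := hY'.unique hk hy
        have h2 : Rg φ τ (2 * Y) (2 * Y') := by
          rw [two_mul, two_mul]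
          exact hY'.add hY'
        obtain ⟨h3, h4⟩ := inv_val hk hy2 h2 (hA _ (Finset.mem_insert_self _ _)).2
        obtain ⟨hh', e4⟩ := add_self hXY' h' h3 rfl
        have hl : Rg φ τ ((3 * X ^ 2 + 2 * a * X + b) * (2 * Y)⁻¹)
            ((3 * X' ^ 2 + 2 * a' * X' + b') * (2 * Y')⁻¹) := by
          refine Rg.mul ?_ h4
          have two : Rg φ τ (2 : K) (2 : M) := by
            rw [← one_add_one_eq_two, ← one_add_one_eq_two]
            exact Rg.one.add Rg.one
          have three : Rg φ τ (3 : K) (3 : M) := by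
            rw [← two_add_one_eq_three, ← two_add_one_eq_three]
            exact two.add Rg.one
          rw [pow_two, pow_two]
          exact ((three.mul (hX'.mul hX')).add ((two.mul ha).mul hX')).add hb
        obtain ⟨k1, k2⟩ := hrg ha hl hX' hY' hX'
        exact ⟨_, _, hh', k1, k2, by rw [add_smul, one_smul, e3, e4]⟩
      · obtain ⟨hh, e2⟩ := add_X_ne hXY h hXx rfl
        refine ⟨insert (X - x) A, _, _, hh, by rw [add_smul, one_smul, e1, e2], ?_⟩
        intro M _ _ τ hk hA a' b' c' x' y' ha hb hx hy h'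
        obtain ⟨X', Y', hXY', hX', hY', e3⟩ := H τ hk
          (fun f hf => hA f (Finset.mem_insert_of_mem hf)) a' b' c' x' y' ha hb hx hy h'
        obtain ⟨h3, h4⟩ := inv_val hk (sub_ne_zero.2 hXx) (hX'.sub hx)
          (hA _ (Finset.mem_insert_self _ _)).2
        obtain ⟨hh', e4⟩ := add_X_ne hXY' h' (sub_ne_zero.1 h3) rfl
        have hl : Rg φ τ ((Y - y) * (X - x)⁻¹) ((Y' - y') * (X' - x')⁻¹) := (hY'.sub hy).mul h4
        obtain ⟨k1, k2⟩ := hrg ha hl hX' hY' hx
        exact ⟨_, _, hh', k1, k2, by rw [add_smul, one_smul, e3, e4]⟩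

end spec

end Pool.Agent.U207.PD
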