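import Pool.Agent.Y742.GG.Near

/-! Points near a good point; transfer of good points along homomorphisms. Adapted from
`Pool.Agent.Y742.GG.Near`. -/

set_option autoImplicit false
set_option linter.unusedSectionVars false

open Polynomial WeierstrassCurve Pool.Agent.Y720.MZ Filter Topology Pool.Agent.Y742.GG

namespace Pool.Agent.U207.PD

variable {K : Type*} [Field K] {N : ℕ}

section transf

variable {S M M' : Type*} [CommRing S] [Field M] [Field M'] [DecidableEq M] [DecidableEq M']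
  {φ : S →+* K} {τ : S →+* M} (σ : M →+* M')

/-- good points ascend -/
theorem Good.comp {μ : Mv K N} (hk : ∀ s, φ s = 0 → τ s = 0) (h : Good φ τ μ) :
    Good φ (σ.comp τ) μ := by
  have hk' : ∀ s, φ s = 0 → σ.comp τ s = 0 := fun s hs => by
    rw [RingHom.comp_apply, hk s hs, map_zero]
  have val : ∀ (f : K) (r' : M'), Rg φ (σ.comp τ) f r' → ∃ r, Rg φ τ f r ∧ r' = σ r := by
    intro f r' hr'
    obtain ⟨r, hr⟩ := hr'.of_comp σ
    exact ⟨r, hr, hr'.unique hk' (hr.comp σ)⟩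
  refine ⟨fun f hf => ?_, fun r' hr' => ?_, fun r' hr' => ?_, ?_⟩
  · obtain ⟨r, hr⟩ := h.reg f hf
    exact ⟨σ r, hr.comp σ⟩
  · obtain ⟨r, hr, rfl⟩ := val _ _ hr'
    exact (map_ne_zero σ).2 (h.w0 _ hr)
  · obtain ⟨r, hr, rfl⟩ := val _ _ hr'
    exact (map_ne_zero σ).2 (h.B0 _ hr)
  · intro w q₁ q₂ q₃ q₄ hw h₁ h₂ h₃ h₄ hdc
    obtain ⟨w', hw', rfl⟩ := val _ _ hw
    obtain ⟨q₁', h₁', rfl⟩ := val _ _ h₁
    obtain ⟨q₂', h₂', rfl⟩ := val _ _ h₂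
    obtain ⟨q₃', h₃', rfl⟩ := val _ _ h₃
    obtain ⟨q₄', h₄', rfl⟩ := val _ _ h₄
    apply inf_map σ
    refine h.inf _ _ _ _ _ hw' h₁' h₂' h₃' h₄' ?_
    rw [← map_pow, Pool.Agent.Y742.GG.map_dc] at hdc
    exact (map_ne_zero σ).1 hdc

end transf

section near

variable {k : Type*} [Field k] {p : ℕ} [hp : Fact p.Prime] (σ : k →+* ℚ_[p])
variable {φ : MvPolynomial (Fin N) k →+* K}
variable [DecidableEq K] [DecidableEq ℚ_[p]]

/-- The points near a good point are good. Adapted from `Pool.Agent.Y742.GG.good_near`. -/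
theorem good_near' {X₀ : Fin N → ℚ_[p]} (hk : ∀ P, φ P = 0 → tau σ X₀ P = 0) (μ : Mv K N)
    (hG : Good φ (tau σ X₀) μ)
    (hdc0 : dc (μ.w ^ 2) μ.q₁ μ.q₂ μ.q₃ μ.q₄ ≠ 0 → ∀ w q₁ q₂ q₃ q₄, Rg φ (tau σ X₀) μ.w w →
      Rg φ (tau σ X₀) μ.q₁ q₁ → Rg φ (tau σ X₀) μ.q₂ q₂ → Rg φ (tau σ X₀) μ.q₃ q₃ →
      Rg φ (tau σ X₀) μ.q₄ q₄ → dc (w ^ 2) q₁ q₂ q₃ q₄ ≠ 0) :
    ∀ᶠ X in 𝓝 X₀ ⊓ 𝓟 {X | ∀ P, φ P = 0 → tau σ X P = 0}, Good φ (tau σ X) μ := by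
  have hreg := hG.reg
  have mem : ∀ᶠ X in 𝓝 X₀ ⊓ 𝓟 {X : Fin N → ℚ_[p] | ∀ P, φ P = 0 → tau σ X P = 0},
      ∀ P, φ P = 0 → tau σ X P = 0 := by
    exact mem_inf_of_right (mem_principal_self _)
  have nonz : ∀ f ∈ Oc φ (tau σ X₀), (∀ r, Rg φ (tau σ X₀) f r → r ≠ 0) →
      ∀ᶠ X in 𝓝 X₀ ⊓ 𝓟 {X : Fin N → ℚ_[p] | ∀ P, φ P = 0 → tau σ X P = 0},
      ∀ r, Rg φ (tau σ X) f r → r ≠ 0 := by
    intro f hf hf0
    obtain ⟨r, hr⟩ := hf
    have hr0 : r ≠ 0 := hf0 r hr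
    obtain ⟨g, hg, hg'⟩ := near_rg σ hr
    filter_upwards [mem, (hg.eventually_ne hr0).filter_mono inf_le_left,
      hg'.filter_mono inf_le_left] with X h1 h2 h3 r' hr'
    rw [hr'.unique h1 h3]
    exact h2
  have mw : μ.w ∈ μ.coefs := by simp [Mv.coefs]
  have m1 : μ.q₁ ∈ μ.coefs := by simp [Mv.coefs]
  have m2 : μ.q₂ ∈ μ.coefs := by simp [Mv.coefs]
  have m3 : μ.q₃ ∈ μ.coefs := by simp [Mv.coefs]
  have m4 : μ.q₄ ∈ μ.coefs := by simp [Mv.coefs]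
  have mB : μ.B.coeff 0 ∈ μ.coefs := by simp [Mv.coefs]
  have mB' : μ.B'.coeff 0 ∈ μ.coefs := by simp [Mv.coefs]
  have hregn : ∀ᶠ X in 𝓝 X₀ ⊓ 𝓟 {X : Fin N → ℚ_[p] | ∀ P, φ P = 0 → tau σ X P = 0},
      ∀ f ∈ μ.coefs, f ∈ Oc φ (tau σ X) := by
    rw [eventually_all_finite μ.coefs_finite]
    intro f hf
    obtain ⟨r, hr⟩ := hreg f hf
    obtain ⟨g, -, hg'⟩ := near_rg σ hr
    filter_upwards [hg'.filter_mono inf_le_left] with X hX
    exact ⟨_, hX⟩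
  obtain ⟨rw', hrw⟩ := hreg _ mw
  obtain ⟨r1, hr1⟩ := hreg _ m1
  obtain ⟨r2, hr2⟩ := hreg _ m2
  obtain ⟨r3, hr3⟩ := hreg _ m3
  obtain ⟨r4, hr4⟩ := hreg _ m4
  have hrw0 : rw' ≠ 0 := hG.w0 _ hrw
  have hinfn : ∀ᶠ X in 𝓝 X₀ ⊓ 𝓟 {X : Fin N → ℚ_[p] | ∀ P, φ P = 0 → tau σ X P = 0},
      ∀ w q₁ q₂ q₃ q₄, Rg φ (tau σ X) μ.w w → Rg φ (tau σ X) μ.q₁ q₁ →
      Rg φ (tau σ X) μ.q₂ q₂ → Rg φ (tau σ X) μ.q₃ q₃ →
    Rg φ (tau σ X) μ.q₄ q₄ → dc (w ^ 2) q₁ q₂ q₃ q₄ ≠ 0 → ∀ h, ∀ n : ℕ, n ≠ 0 →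
      n • (.some (xs w q₁ q₂) (ys w q₁ q₂ q₃) h :
        Pt q₂ (rb w q₁ q₃ q₄) (rc w q₁ q₂ q₃ q₄)) ≠ 0 := by
    by_cases hdc : dc (μ.w ^ 2) μ.q₁ μ.q₂ μ.q₃ μ.q₄ = 0
    · filter_upwards [mem] with X hX w q₁ q₂ q₃ q₄ hw' h₁ h₂ h₃ h₄ hd
      exfalso
      apply hd
      have hO : dc ((⟨_, w, hw'⟩ : Oc φ (tau σ X)) ^ 2) ⟨_, q₁, h₁⟩ ⟨_, q₂, h₂⟩ ⟨_, q₃, h₃⟩
          ⟨_, q₄, h₄⟩ = 0 := by
        apply (Oc φ (tau σ X)).subtype_injective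
        rw [← Pool.Agent.Y742.GG.map_dc, map_pow, map_zero]
        exact hdc
      have h5 := congrArg (ev hX) hO
      rw [← Pool.Agent.Y742.GG.map_dc, map_pow, map_zero] at h5
      rw [ev_eq hX (f := ⟨μ.w, w, hw'⟩) hw', ev_eq hX (f := ⟨μ.q₁, q₁, h₁⟩) h₁,
        ev_eq hX (f := ⟨μ.q₂, q₂, h₂⟩) h₂, ev_eq hX (f := ⟨μ.q₃, q₃, h₃⟩) h₃,
        ev_eq hX (f := ⟨μ.q₄, q₄, h₄⟩) h₄] at h5
      exact h5
    · have hdc2 : dc (rw' ^ 2) r1 r2 r3 r4 ≠ 0 := hdc0 hdc _ _ _ _ _ hrw hr1 hr2 hr3 hr4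
      have hinf3 := hG.inf _ _ _ _ _ hrw hr1 hr2 hr3 hr4 hdc2
      have hD : dsc r2 (rb rw' r1 r3 r4) (rc rw' r1 r2 r3 r4) ≠ 0 := by
        rw [← dq_eq, dq] at hdc2; exact hdc2
      have hns := ns_of_dsc hD (s_eqn (q₁ := r1) (q₂ := r2) (q₃ := r3) (q₄ := r4) hrw0)
      obtain ⟨gw, tw, gw'⟩ := near_rg σ hrw
      obtain ⟨g1, t1, g1'⟩ := near_rg σ hr1
      obtain ⟨g2, t2, g2'⟩ := near_rg σ hr2
      obtain ⟨g3, t3, g3'⟩ := near_rg σ hr3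
      obtain ⟨g4, t4, g4'⟩ := near_rg σ hr4
      have tb : Tendsto (fun X => rb (gw X) (g1 X) (g3 X) (g4 X)) (𝓝 X₀)
          (𝓝 (rb rw' r1 r3 r4)) := by
        simp only [rb]
        exact (t1.mul t3).sub (((tw.pow 2).const_mul _).mul t4)
      have tc : Tendsto (fun X => rc (gw X) (g1 X) (g2 X) (g3 X) (g4 X)) (𝓝 X₀)
          (𝓝 (rc rw' r1 r2 r3 r4)) := by
        simp only [rc]
        exact (((t1.pow 2).mul t4).add ((tw.pow 2).mul (t3.pow 2))).sub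
          ((((tw.pow 2).const_mul _).mul t2).mul t4)
      have tx : Tendsto (fun X => xs (gw X) (g1 X) (g2 X)) (𝓝 X₀) (𝓝 (xs rw' r1 r2)) := by
        simp only [xs]
        exact ((t1.pow 2).div ((tw.pow 2).const_mul _)
          (mul_ne_zero (by norm_num) (pow_ne_zero 2 hrw0))).sub t2
      have ty : Tendsto (fun X => ys (gw X) (g1 X) (g2 X) (g3 X)) (𝓝 X₀)
          (𝓝 (ys rw' r1 r2 r3)) := by
        simp only [ys]
        exact ((t1.mul tx).add (((tw.pow 2).const_mul _).mul t3)).div (tw.const_mul _)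
          (mul_ne_zero two_ne_zero hrw0)
      classical
      let P : ∀ X, Pt (g2 X) (rb (gw X) (g1 X) (g3 X) (g4 X))
          (rc (gw X) (g1 X) (g2 X) (g3 X) (g4 X)) := fun X =>
        if h : (cv (g2 X) (rb (gw X) (g1 X) (g3 X) (g4 X))
          (rc (gw X) (g1 X) (g2 X) (g3 X) (g4 X))).toAffine.Nonsingular
          (xs (gw X) (g1 X) (g2 X)) (ys (gw X) (g1 X) (g2 X) (g3 X)) then .some _ _ h else 0
      obtain ⟨B, hBd⟩ := tor_bound (RingHom.id ℚ_[p]) (l := 𝓝 X₀) t2 tb tc hD P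
      have hnsn : ∀ᶠ X in 𝓝 X₀, (cv (g2 X) (rb (gw X) (g1 X) (g3 X) (g4 X))
          (rc (gw X) (g1 X) (g2 X) (g3 X) (g4 X))).toAffine.Nonsingular
          (xs (gw X) (g1 X) (g2 X)) (ys (gw X) (g1 X) (g2 X) (g3 X)) := by
        have td : Tendsto (fun X => dsc (g2 X) (rb (gw X) (g1 X) (g3 X) (g4 X))
            (rc (gw X) (g1 X) (g2 X) (g3 X) (g4 X))) (𝓝 X₀)
            (𝓝 (dsc r2 (rb rw' r1 r3 r4) (rc rw' r1 r2 r3 r4))) := by
          simp only [dsc]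
          exact (((((t2.pow 2).mul (tb.pow 2)).sub ((tb.pow 3).const_mul _)).sub
            (((t2.pow 3).const_mul _).mul tc)).sub ((tc.pow 2).const_mul _)).add
            (((t2.const_mul _).mul tb).mul tc)
        filter_upwards [td.eventually_ne hD, tw.eventually_ne hrw0] with X h1 h2
        exact ns_of_dsc h1 (s_eqn h2)
      have hsmall : ∀ᶠ X in 𝓝 X₀, ∀ n : ℕ, n ≠ 0 → n ≤ B → n • P X ≠ 0 := by
        have h1 : ∀ n ∈ Finset.Iic B, ∀ᶠ X in 𝓝 X₀, n ≠ 0 → n • P X ≠ 0 := by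
          intro n _
          by_cases hn : n = 0
          · exact Eventually.of_forall fun X h => absurd hn h
          · obtain ⟨Z, W, Z₀, W₀, -, h2, -, -⟩ := cont_mult (l := 𝓝 X₀) (RingHom.id ℚ_[p])
              (a := fun X => g2 X) (b := fun X => rb (gw X) (g1 X) (g3 X) (g4 X))
              (c := fun X => rc (gw X) (g1 X) (g2 X) (g3 X) (g4 X))
              (x := fun X => xs (gw X) (g1 X) (g2 X))
              (y := fun X => ys (gw X) (g1 X) (g2 X) (g3 X)) t2 tb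
              tc tx ty hns (hinf3 hns) n hn
            filter_upwards [h2, hnsn] with X h3 h4 _
            obtain ⟨h', he⟩ := h3 h4
            have hP : P X = .some _ _ h4 := dif_pos h4
            rw [hP, he]
            exact fun h0 => by simp at h0
        have h2 := (eventually_all_finset (Finset.Iic B)).2 h1
        filter_upwards [h2] with X hX n hn hnB
        exact hX n (Finset.mem_Iic.2 hnB) hn
      have h5 : ∀ᶠ X in 𝓝 X₀, ∀ n : ℕ, n ≠ 0 → n • P X ≠ 0 := by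
        filter_upwards [hBd, hsmall] with X h1 h2
        exact h1 h2
      filter_upwards [mem, h5.filter_mono inf_le_left, hnsn.filter_mono inf_le_left,
        gw'.filter_mono inf_le_left, g1'.filter_mono inf_le_left, g2'.filter_mono inf_le_left,
        g3'.filter_mono inf_le_left, g4'.filter_mono inf_le_left] with
        X hX h6 h7 k0 k1 k2 k3 k4 w q₁ q₂ q₃ q₄ hw' h₁ h₂ h₃ h₄ hd h n hn
      obtain rfl := hw'.unique hX k0
      obtain rfl := h₁.unique hX k1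
      obtain rfl := h₂.unique hX k2
      obtain rfl := h₃.unique hX k3
      obtain rfl := h₄.unique hX k4
      have hP : P X = .some _ _ h7 := dif_pos h7
      rw [← hP]
      exact h6 n hn
  filter_upwards [hregn, nonz _ (hreg _ mw) hG.w0, nonz _ (add_mem (hreg _ mB)
    (mul_mem (hreg _ mB') (hreg _ mw))) hG.B0, hinfn] with X h1 h2 h3 h4
  exact ⟨h1, h2, h3, h4⟩

end near

end Pool.Agent.U207.PD
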