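import Pool.Agent.U207.PD.Dens
import Pool.Agent.Y742.GG.Pad
import Pool.Agent.R867.D.Dens

/-! Parametrized points with values in `p`-adic fields. -/

set_option autoImplicit false

open MvPolynomial Filter Topology Pool.Agent.Y742.GG Pool.Agent.R867.Mov Pool.Agent.R867.D

namespace Pool.Agent.U207.PD

section padic

variable {p : ℕ} [hp : Fact p.Prime]

/-- independent `p`-adic numbers -/
theorem exists_t0 {k : Type} [Field k] (hk : Countable k) (σ : k →+* ℚ_[p]) (r : ℕ) :
    ∃ t₀ : Fin r → ℚ_[p], ∀ P : MvPolynomial (Fin r) k, eval₂ σ t₀ P = 0 → P = 0 := by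
  have hcP : Countable (MvPolynomial (Fin r) k) := by
    rw [← Cardinal.mk_le_aleph0_iff]
    refine MvPolynomial.cardinalMk_le_max.trans ?_
    simp only [max_le_iff, le_refl, and_true]
    exact ⟨Cardinal.mk_le_aleph0_iff.2 hk, Cardinal.mk_le_aleph0⟩
  have hdense : Dense (⋂ P : {P : MvPolynomial (Fin r) k // P ≠ 0},
      {Y : Fin r → ℚ_[p] | eval Y (map σ P.1) ≠ 0}) := by
    refine dense_iInter_of_isOpen (fun P => ?_) fun P => ?_
    · exact isOpen_compl_singleton.preimage (MvPolynomial.continuous_eval _)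
    · apply dense_ne
      rw [Ne, map_eq_zero_iff _ (map_injective _ σ.injective)]
      exact P.2
  obtain ⟨t₀, ht₀⟩ := hdense.nonempty
  refine ⟨t₀, fun P hP => ?_⟩
  by_contra h0
  have h1 := Set.mem_iInter.1 ht₀ ⟨P, h0⟩
  apply h1
  rw [eval_map]
  exact hP

/-- points over a dense subfield in an open set at which a polynomial does not vanish -/
theorem exists_t {k Ω : Type} [Field k] [CharZero k] [Field Ω] [Algebra k Ω] (σ : k →+* ℚ_[p])
    {r : ℕ} {C : Set (Fin r → ℚ_[p])} (hC : IsOpen C) (hne : C.Nonempty)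
    {G : MvPolynomial (Fin r) Ω} (hG : G ≠ 0) :
    ∃ t : Fin r → k, (fun i => σ (t i)) ∈ C ∧ eval (fun i => algebraMap k Ω (t i)) G ≠ 0 := by
  by_contra hcon
  push Not at hcon
  apply hG
  ext m
  rw [coeff_zero]
  apply eq_zero_of_functional (M := k)
  intro f
  rw [← coeff_Lam]
  have h1 : MvPolynomial.map σ (Lam f G) = 0 := by
    by_contra h0
    obtain ⟨Y, hY, hYC⟩ := (dense_ne h0).inter_open_nonempty C hC hne
    have hop : IsOpen (C ∩ {X : Fin r → ℚ_[p] | eval X (MvPolynomial.map σ (Lam f G)) ≠ 0}) :=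
      hC.inter (isOpen_compl_singleton.preimage (MvPolynomial.continuous_eval _))
    obtain ⟨y, hy⟩ := (DenseRange.piMap
      (fun _ : Fin r => denseRange_rat (p := p))).exists_mem_open hop ⟨Y, hY, hYC⟩
    have e1 : (fun i => σ ((y i : ℚ) : k)) = fun i => ((y i : ℚ) : ℚ_[p]) :=
      funext fun i => map_ratCast σ (y i)
    have h2 := hcon (fun i => ((y i : ℚ) : k)) (by
      rw [e1]
      exact hy.1)
    apply hy.2
    have e2 : Pi.map (fun _ : Fin r => ((↑) : ℚ → ℚ_[p])) y = fun i => σ ((y i : ℚ) : k) := by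
      rw [e1]
      rfl
    rw [e2, eval_map]
    have e3 : eval₂ σ (fun i => σ ((y i : ℚ) : k)) (Lam f G) =
        σ (eval (fun i => ((y i : ℚ) : k)) (Lam f G)) := by
      rw [← eval₂_id, eval₂_comp_left]
      rfl
    rw [e3, eval_Lam, h2, map_zero, map_zero]
  have h2 : Lam f G = 0 := by
    apply map_injective σ σ.injective
    rw [h1, map_zero]
  rw [h2, coeff_zero]

end padic

/-- common denominators -/
theorem common_den {Ω : Type} [Field Ω] {N r : ℕ} (θ : Fin N → Rt r Ω) :
    ∃ (a : Fin N → MvPolynomial (Fin r) Ω) (b : MvPolynomial (Fin r) Ω), b ≠ 0 ∧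
      ∀ i, θ i * algebraMap (MvPolynomial (Fin r) Ω) (Rt r Ω) b =
        algebraMap (MvPolynomial (Fin r) Ω) (Rt r Ω) (a i) := by
  classical
  have hfrac : ∀ x : Rt r Ω, ∃ n m : MvPolynomial (Fin r) Ω, m ≠ 0 ∧
      x * algebraMap (MvPolynomial (Fin r) Ω) (Rt r Ω) m =
        algebraMap (MvPolynomial (Fin r) Ω) (Rt r Ω) n := by
    intro x
    obtain ⟨n, m, hm, rfl⟩ := IsFractionRing.div_surjective (A := MvPolynomial (Fin r) Ω) x
    have hm0 := nonZeroDivisors.ne_zero hm
    refine ⟨n, m, hm0, div_mul_cancel₀ _ ?_⟩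
    rw [Ne, map_eq_zero_iff _ (IsFractionRing.injective (MvPolynomial (Fin r) Ω) (Rt r Ω))]
    exact hm0
  choose n d hd hn using fun i => hfrac (θ i)
  refine ⟨fun i => n i * ∏ j ∈ Finset.univ.erase i, d j, ∏ i, d i,
    Finset.prod_ne_zero_iff.2 fun i _ => hd i, fun i => ?_⟩
  rw [← Finset.mul_prod_erase _ _ (Finset.mem_univ i), map_mul, map_mul, ← mul_assoc, hn i]

/-- finitely many polynomials are defined over a number field -/
theorem descend2 (k₀ : Type) [Field k₀] {N r : ℕ}
    {S : Set (MvPolynomial (Fin N) (AlgebraicClosure k₀))} (hS : S.Finite)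
    {S' : Set (MvPolynomial (Fin r) (AlgebraicClosure k₀))} (hS' : S'.Finite) :
    ∃ k : IntermediateField k₀ (AlgebraicClosure k₀), FiniteDimensional k₀ k ∧
      (∀ P ∈ S, ∃ P' : MvPolynomial (Fin N) k,
        MvPolynomial.map (algebraMap k (AlgebraicClosure k₀)) P' = P) ∧
      ∀ P ∈ S', ∃ P' : MvPolynomial (Fin r) k,
        MvPolynomial.map (algebraMap k (AlgebraicClosure k₀)) P' = P := by
  classical
  set A : Set (AlgebraicClosure k₀) := (⋃ P ∈ S, (P.coeffs : Set (AlgebraicClosure k₀))) ∪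
    ⋃ P ∈ S', (P.coeffs : Set (AlgebraicClosure k₀)) with hA
  have hfin : A.Finite := (hS.biUnion fun P _ => Finset.finite_toSet _).union
    (hS'.biUnion fun P _ => Finset.finite_toSet _)
  have : Finite A := hfin
  refine ⟨IntermediateField.adjoin k₀ A, IntermediateField.finiteDimensional_adjoin
      (fun x _ => Algebra.IsIntegral.isIntegral x), fun P hP => ?_, fun P hP => ?_⟩
  · have h1 : P ∈ Set.range (MvPolynomial.map (algebraMap (IntermediateField.adjoin k₀ A)
        (AlgebraicClosure k₀))) := by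
      rw [MvPolynomial.mem_range_map_iff_coeffs_subset]
      intro a ha
      have h2 : a ∈ A := by
        rw [hA]
        left
        simp only [Set.mem_iUnion]
        exact ⟨P, hP, ha⟩
      exact ⟨⟨a, IntermediateField.subset_adjoin _ _ h2⟩, rfl⟩
    obtain ⟨P', hP'⟩ := h1
    exact ⟨P', hP'⟩
  · have h1 : P ∈ Set.range (MvPolynomial.map (algebraMap (IntermediateField.adjoin k₀ A)
        (AlgebraicClosure k₀))) := by
      rw [MvPolynomial.mem_range_map_iff_coeffs_subset]
      intro a ha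
      have h2 : a ∈ A := by
        rw [hA]
        right
        simp only [Set.mem_iUnion]
        exact ⟨P, hP, ha⟩
      exact ⟨⟨a, IntermediateField.subset_adjoin _ _ h2⟩, rfl⟩
    obtain ⟨P', hP'⟩ := h1
    exact ⟨P', hP'⟩

end Pool.Agent.U207.PD
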